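import Pool.Agent.Helper91.GS.Final
import Pool.Agent.Helper91.GS.Nil
import Pool.Agent.Helper91.GS.Spec

/-!
# Tame representations for generic sets of primes

Let `K` be a number field with unit rank `r`, and let `p` be an odd prime number which does not divide
the class number `h` of `K`, such that `K` does not contain the roots of unity of order `p`. A set `S` of
`s` primes `P i` of `K` with prime norms `p c i + 1` has a table of symbols in `F_p`: the logarithms
`λ i a` modulo `P i` of the fundamental units, the logarithms `M i j` modulo `P j` of the generators of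
`(P i) ^ h`, and the numbers `M i i = c i`; the rows of `M` are only considered up to scalars. We show that for almost all tables the continuous
representations of the absolute Galois group of `K` with values in `GL_m(A)`, for arbitrary complete
Noetherian local rings `A` with finite residue field of characteristic `p`, which are at most tamely
ramified, unramified outside `S` and primes with norm not congruent to `1` modulo `p` or above `p`, and
whose image in `PGL_m` of the residue field is a `p`-group, have finite image, if

* `m = 2` and `s ≤ 2 r + 3`, or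
* `m ≤ n < p` and `(n - 1) (2 (s - r) - 2 n + 1) ≤ r`, `2 (n - 1) ≤ s - r`, or
* `m = 2`, for all `s`, if inertia at the primes of `S` acts unipotently, or if `A` has no real roots of
  unity of order `p` at its minimal primes, or
* `s = 4`, for all `m`, if `(ρ τ - 1) ^ 2 = 0` for all elements `τ` of the inertia groups at the primes
  of `S`.

Here 'almost all' means that a polynomial `D` with integral coefficients, which depends only on `n`, `r`
and `s`, does not vanish at the table. The proportion of the zeros of `D` modulo `p` is at most `C / p`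
with a number `C` which depends only on `n`, `r` and `s`. Moreover, for `s = 4` and each `ν` in `F_p`
which is not a square there is an explicit table such that all such representations with `m = 2` have
finite image (`Special`). All tables with `D ≠ 0` and the special ones occur for infinitely many sets `S`
if `p` does not divide the discriminant of `K`.

By the theorem of Golod and Shafarevich and the formulas of Shafarevich and Koch the Galois group
`G_S(p)` of the maximal `p`-extension of `K` unramified outside `S` is infinite if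
`4 s ≤ (s - r) ^ 2`: it is generated by `d ≥ s - r` elements and has at most `d + r` relations. This is
the case for `s = 4` and `r = 0`, for `s = 2 r + 3` if `r ≥ 3` (`golod`), and there are such `s` which
satisfy the second condition if `r ≥ 16 n ^ 2` (`exists_size`). So the infinite group `G_S(p)` has no
infinite image in `GL_2(A)` for any `A`, if `S` has a special table and `K` is the field of rational
numbers or an imaginary quadratic field, for every `p`, and if `r ≥ 3`, for almost all sets `S` of
`2 r + 3` primes; and similarly for `GL_n(A)` if `r ≥ 16 n ^ 2`.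

Idea of the proof. Let `ρ = 1 + π ^ a φ` modulo `π ^ (a + 1)` be a representation with values in
`GL_m(O)`, where `O` is a complete discrete valuation ring with prime element `π`. Let `N i` be the
matrices `φ(τ i)` over the residue field `k` for suitable elements `τ i` of inertia groups at `P i`. By
class field theory the relations of units give `∑ λ i a N i = 0`, and a Frobenius element at `P i` is
mapped to `- ∑ M i j N j / h`, where the sum is over `j ≠ i`, up to a multiple of `N i`. The relation
between inertia and Frobenius elements shows that the commutator of `∑ M i j N j` and `N i` is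
`u M i i N i` for a number `u` in `k` (which is zero if `π ^ a` is less divisible than `p`). Each entry of
the commutators of the `N i` is an alternating form `W` on `k ^ s` of rank at most `2 (m - 1)`, and the
entry of `u N i` is a vector `l`, such that `∑ λ i a W i j = 0`, `∑ λ i a l i = 0`, and
`∑ M i j W i j = M i i l i`, the sum over `j ≠ i`. A count of parameters, in terms of transcendence
degrees, shows that there is no solution with `(W, l) ≠ 0` over any field which contains the entries
`λ i a` and `M i j` as algebraically independent elements. So over the integers the elimination ideal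
contains a polynomial `D ≠ 0`. For `m = 2` the forms `W` have rank at most two, and it suffices to
consider `l = 0`, because for `u ≠ 0` the matrices `N i` are nilpotent; nilpotent matrices of size two
commute for almost all tables and all `s`. If `D` does not vanish at the table, then all first
coefficients `φ` are commutative. It was proved before that the image of the representation is finite in
this case: abelian quotients of open subgroups of the Galois group are finite by class field theory.
In the last case `s = 4`, `(N i) ^ 2 = 0` it suffices that all `φ` generate nilpotent algebras. One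
considers the graded algebra with generators `N i` and `u` and the relations above. For one table it is
shown by hand that all words of a certain length vanish or are powers of `u`; then this is so outside the
zeros of a polynomial.

For `m = 2`, `u = 0` and the special table, if `N 0` and `N 1` do not commute, then
`N 3 = N 1 - α N 0` and `N 2 = N 0 - (α / ν) N 1`, where `(α + 1) ^ 2 = ν`. The inertia groups act through
roots of unity of order `p` up to a common factor, so that the determinants of the `N i` are products
of squares of elements `a i` of the prime field and a common factor. It follows that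
`ν ((a 3) ^ 2 - ν (a 2) ^ 2) = (2 α + 1) ((a 1) ^ 2 - ν (a 0) ^ 2)`. As `α` is not in the prime field,
all `a i` vanish, but there are no two linearly independent nilpotent matrices of size two which are
orthogonal to each other. For `u ≠ 0` the `N i` are nilpotent, and the traces of the products of three
of them satisfy linear equations which only have the solution zero.

The primes with a given table are chosen one after the other with a form of the density theorem of
Frobenius. It only gives the Frobenius elements up to powers which are prime to `p`. Therefore the rows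
`M i` are only given up to scalars `k i ≠ 0` in the definition of a table.
-/

set_option autoImplicit false

open NumberField IsLocalRing Matrix

open scoped Pointwise

namespace Pool.Agent.Results.MP_924d78_nt.GenericSets

/-- The absolute Galois group of the field `K`. -/
abbrev G (K : Type) [Field K] : Type := AlgebraicClosure K ≃ₐ[K] AlgebraicClosure K

/-- The homomorphism `ρ` is unramified outside `S` and at most tamely ramified in `S`: for every
number field `F` containing `K` and embedded over `K` into the fixed field of the kernel of `ρ`,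
and every maximal ideal `P` of the ring of integers of `F` above a prime `q` of `K`, the ramification
index `e` of `P` over `q` is `1` if `q ∉ S` and is prime to the residue characteristic if `q ∈ S`. -/
def TameAt (K : Type) [Field K] [NumberField K] (S : Set (Ideal (𝓞 K))) {H : Type} [Group H]
    (ρ : G K →* H) : Prop :=
  ∀ (F : Type) [Field F] [NumberField F] [Algebra K F] (ι : F →ₐ[K] AlgebraicClosure K),
    ι.fieldRange ≤ IntermediateField.fixedField ρ.ker →
    ∀ (P : Ideal (𝓞 F)), P.IsMaximal →
    ∀ (q : Ideal (𝓞 K)), q = P.comap (algebraMap (𝓞 K) (𝓞 F)) →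
    ∀ e : ℕ, q.map (algebraMap (𝓞 K) (𝓞 F)) ≤ P ^ e →
      ¬ (q.map (algebraMap (𝓞 K) (𝓞 F)) ≤ P ^ (e + 1)) →
      (q ∉ S → e = 1) ∧ (q ∈ S → ¬ (ringChar (𝓞 K ⧸ q) ∣ e))

/-- The residual representation: the reduction of `ρ` modulo the maximal ideal. -/
noncomputable def residual {Γ A : Type} [Group Γ] [CommRing A] [IsLocalRing A] {n : ℕ}
    (ρ : Γ →* GL (Fin n) A) : Γ →* GL (Fin n) (ResidueField A) :=
  (Matrix.GeneralLinearGroup.map (residue A)).comp ρ

/-- The projective image of `τ` is a `p`-group: for every `g` some power of `τ g` with exponent a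
power of `p` is scalar. -/
def ProjectivelyP (p : ℕ) {Γ k : Type} [Group Γ] [Field k] {n : ℕ} (τ : Γ →* GL (Fin n) k) : Prop :=
  ∀ g, ∃ (j : ℕ) (a : k), ((τ g ^ p ^ j : GL (Fin n) k) : Matrix (Fin n) (Fin n) k) = a • 1

/-- Inertia at the primes `P i` acts unipotently: if an automorphism `τ` acts trivially on the ring of
all algebraic integers modulo a maximal ideal above one of the `P i`, then `ρ τ - 1` is nilpotent. -/
def Unipotent {K : Type} [Field K] [NumberField K] {s : ℕ} (P : Fin s → Ideal (𝓞 K)) {A : Type}
    [CommRing A] {n : ℕ} (ρ : G K →* GL (Fin n) A) : Prop :=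
  ∀ Q : Ideal (𝓞 (AlgebraicClosure K)), Q.IsMaximal →
    Q.comap (algebraMap (𝓞 K) (𝓞 (AlgebraicClosure K))) ∈ Set.range P → ∀ τ : G K,
    (∀ x : 𝓞 (AlgebraicClosure K), τ • x - x ∈ Q) →
    IsNilpotent ((ρ τ : Matrix (Fin n) (Fin n) A) - 1)

/-- Inertia at the primes `P i` acts unipotently with exponent two: if an automorphism `τ` acts trivially
on the ring of all algebraic integers modulo a maximal ideal above one of the `P i`, then
`(ρ τ - 1) ^ 2 = 0`. -/
def SquareZero {K : Type} [Field K] [NumberField K] {s : ℕ} (P : Fin s → Ideal (𝓞 K)) {A : Type}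
    [CommRing A] {n : ℕ} (ρ : G K →* GL (Fin n) A) : Prop :=
  ∀ Q : Ideal (𝓞 (AlgebraicClosure K)), Q.IsMaximal →
    Q.comap (algebraMap (𝓞 K) (𝓞 (AlgebraicClosure K))) ∈ Set.range P → ∀ τ : G K,
    (∀ x : 𝓞 (AlgebraicClosure K), τ • x - x ∈ Q) →
    ((ρ τ : Matrix (Fin n) (Fin n) A) - 1) ^ 2 = 0

/-- For no homomorphism from `A` to a field of characteristic zero, whose kernel is a minimal prime
ideal, the image contains the sum of a primitive root of unity of order `p` and its inverse. -/
def NoRealRoot (p : ℕ) (A : Type) [CommRing A] : Prop :=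
  ∀ (E : Type) [Field E] [CharZero E] (f : A →+* E), RingHom.ker f ∈ minimalPrimes A →
    ∀ z : E, IsPrimitiveRoot z p → z + z⁻¹ ∉ f.range

/-- The function `L` is a logarithm modulo `p` of the residue field of `P`. -/
structure IsLog (p : ℕ) {K : Type} [Field K] [NumberField K] (P : Ideal (𝓞 K)) (L : 𝓞 K → ZMod p) :
    Prop where
  mul : ∀ x y, x ∉ P → y ∉ P → L (x * y) = L x + L y
  congr : ∀ x y, x ∉ P → x - y ∈ P → L x = L y
  zero_iff : ∀ x, x ∉ P → (L x = 0 ↔ ∃ z, x - z ^ p ∈ P)

/-- The different primes `P i` with prime norms have the table `t`: there are `c i` such that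
`p * c i + 1` is the norm of `P i`, logarithms `L i` modulo `p` of the residue fields, generators `π i`
of the powers of the `P i` whose exponent is the class number, and `k i ≠ 0`, such that the entries of
`t` are the logarithms `L i` of the fundamental units, and the products of the entries of the second
part of `t` and the `k i` are the numbers `c i` and the `L j (π i)` for `i ≠ j`. -/
def Table (p : ℕ) (K : Type) [Field K] [NumberField K] {s : ℕ} (P : Fin s → Ideal (𝓞 K))
    (t : (Fin s × Fin (Units.rank K)) ⊕ (Fin s × Fin s) → ZMod p) : Prop :=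
  Function.Injective P ∧ (∀ i, (P i).IsMaximal) ∧ (∀ i, (Nat.card (𝓞 K ⧸ P i)).Prime) ∧
  ∃ (c : Fin s → ℕ) (L : Fin s → 𝓞 K → ZMod p) (π : Fin s → 𝓞 K) (k : Fin s → ZMod p),
    (∀ i, Nat.card (𝓞 K ⧸ P i) = p * c i + 1) ∧ (∀ i, IsLog p (P i) (L i)) ∧
    (∀ i, Ideal.span {π i} = P i ^ classNumber K) ∧ (∀ i, k i ≠ 0) ∧
    (∀ i a, L i (Units.fundSystem K a) = t (Sum.inl (i, a))) ∧
    (∀ i, (c i : ZMod p) = k i * t (Sum.inr (i, i))) ∧
    ∀ i j, i ≠ j → L j (π i) = k i * t (Sum.inr (i, j))

/-- A special table for four primes, where `ν` is not a square in the prime field: there is no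
condition for the entries of units. -/
def Special (p : ℕ) {s r : ℕ} (t : (Fin s × Fin r) ⊕ (Fin s × Fin s) → ZMod p) : Prop :=
  ∃ (ν : ZMod p) (h : 4 = s), ¬ IsSquare ν ∧ ∀ i j : Fin 4,
    t (Sum.inr (Fin.cast h i, Fin.cast h j)) =
      !![1, 1, 0, -1; 1, 1, -1, 0; -2 * ν, -1, ν, ν; -1, -2, ν, 1] i j

/-- The conditions for the representation `ρ` of dimension `m`, where `s` is the number of primes `P i`
and `r` is the unit rank. -/
def Condition (p n r : ℕ) {K : Type} [Field K] [NumberField K] {s : ℕ} (P : Fin s → Ideal (𝓞 K))
    {A : Type} [CommRing A] {m : ℕ} (ρ : G K →* GL (Fin m) A) : Prop :=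
  (m = 2 ∧ s ≤ 2 * r + 3) ∨
  (m ≤ n ∧ n < p ∧ r + 2 * (n - 1) ≤ s ∧ 2 * (n - 1) * (s - r) ≤ (n - 1) * (2 * n - 1) + r) ∨
  (m = 2 ∧ (Unipotent P ρ ∨ NoRealRoot p A)) ∨
  (s = 4 ∧ SquareZero P ρ)

private theorem table_iff {p : ℕ} {K : Type} [Field K] [NumberField K] {s : ℕ}
    {P : Fin s → Ideal (𝓞 K)} {t : (Fin s × Fin (Units.rank K)) ⊕ (Fin s × Fin s) → ZMod p} :
    Table p K P t ↔ ∃ (v : Fin s → IsDedekindDomain.HeightOneSpectrum (𝓞 K)) (c : Fin s → ℕ)
      (L : Fin s → 𝓞 K → ZMod p) (π : Fin s → 𝓞 K) (k : Fin s → ZMod p),
      (∀ i, (v i).asIdeal = P i) ∧ Helper91.GS.Tab K p v (Units.fundSystem K) c L π k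
        (fun i a => t (Sum.inl (i, a))) (fun i j => t (Sum.inr (i, j))) := by
  constructor
  · rintro ⟨h1, h2, h3, c, L, π, k, h4, h5, h6, h7, h8, h9, h10⟩
    have hbot : ∀ j, P j ≠ ⊥ := by
      intro j hj
      have h := h2 j
      rw [hj] at h
      exact RingOfIntegers.not_isField K (Ring.isField_iff_maximal_bot.2 h)
    refine ⟨fun j => ⟨P j, (h2 j).isPrime, hbot j⟩, c, L, π, k, fun _ => rfl, ?_⟩
    have hcard : ∀ j, Helper45.TC.nm (K := K) ⟨P j, (h2 j).isPrime, hbot j⟩ = p * c j + 1 :=
      fun j => h4 j
    exact ⟨fun i j hij => h1 (congrArg (fun w => w.asIdeal) hij),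
      fun j => ⟨h3 j, by rw [hcard, Nat.add_sub_cancel]; exact dvd_mul_right _ _⟩,
      fun j => by rw [hcard, Nat.add_sub_cancel],
      fun j => ⟨(h5 j).mul, (h5 j).congr, (h5 j).zero_iff⟩, h6, h7, h9, h8, h10⟩
  · rintro ⟨v, c, L, π, k, hv, h⟩
    obtain rfl : (fun i => (v i).asIdeal) = P := funext hv
    refine ⟨fun i j hij => h.inj (IsDedekindDomain.HeightOneSpectrum.ext hij),
      fun i => (v i).isMaximal, fun i => (h.pst i).1, c, L, π, k, fun i => ?_,
      fun i => ⟨(h.log i).mul, (h.log i).congr, (h.log i).zero_iff⟩, h.gen, h.ne, h.lin, h.diag,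
      h.link⟩
    have h1 := h.card i
    have h2 : 0 < Nat.card (𝓞 K ⧸ (v i).asIdeal) := (h.pst i).1.pos
    change Nat.card (𝓞 K ⧸ (v i).asIdeal) - 1 = p * c i at h1
    change Nat.card (𝓞 K ⧸ (v i).asIdeal) = p * c i + 1
    omega

private theorem special_ne {p s r : ℕ} [Fact p.Prime]
    {t : (Fin s × Fin r) ⊕ (Fin s × Fin s) → ZMod p} (h : Special p t) (i : Fin s) :
    t (Sum.inr (i, i)) ≠ 0 := by
  obtain ⟨ν, rfl, hν, ht⟩ := h
  have hν0 : ν ≠ 0 := fun h => hν (h ▸ IsSquare.zero)
  have h1 := ht i i
  rw [Fin.cast_eq_self] at h1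
  rw [h1]
  fin_cases i
  · exact one_ne_zero
  · exact one_ne_zero
  · exact hν0
  · exact one_ne_zero

private theorem special_trig {p s r : ℕ} [Fact p.Prime] (hp2 : p ≠ 2)
    (lam : Fin s → Fin r → ZMod p) {t : (Fin s × Fin r) ⊕ (Fin s × Fin s) → ZMod p}
    (h : Special p t) : Helper91.GS.TRig p lam (fun i j => t (Sum.inr (i, j))) True := by
  obtain ⟨ν, rfl, hν, ht⟩ := h
  have h1 : (fun i j : Fin 4 => t (Sum.inr (i, j))) = Helper91.GS.spec ν := by
    funext i j
    have h2 := ht i j
    rw [Fin.cast_eq_self, Fin.cast_eq_self] at h2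
    rw [h2]
    fin_cases i <;> fin_cases j <;> rfl
  rw [h1]
  exact Helper91.GS.trig_spec hp2 lam hν

/-- For every `n` there are polynomials `D r s` with integral coefficients and numbers `C r s` such that
at most the proportion `C r s / p` of all tables modulo `p` are zeros of `D r s`, and such that for all odd
prime numbers `p` and all number fields `K` whose class number is not divisible by `p`, where `r` is the
unit rank of `K`:

* if `K` does not contain a primitive root of unity of order `p`, and `s` primes `P i` have the table `t`,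
then all representations of dimension `m` over complete Noetherian local rings, which are tame and
ramified only in a finite set `S'` whose members with norm congruent to `1` modulo `p` are among the
`P i` or above `p`, and whose projective residual image is a `p`-group, have finite image, if `m = 2`
and `t` is special, or if `t` is not a zero of `D r s` and `Condition` is true,
* if `p` does not divide the discriminant of `K`, then for every table which is special or not a zero of
`D r s` and every finite set `B` there are `s` primes `P i` outside `B` with this table. -/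
theorem result (n : ℕ) :
    ∃ (D : ∀ r s : ℕ, MvPolynomial ((Fin s × Fin r) ⊕ (Fin s × Fin s)) ℤ) (C : ℕ → ℕ → ℕ),
      (∀ (r s p : ℕ) [Fact p.Prime],
        Nat.card {t : (Fin s × Fin r) ⊕ (Fin s × Fin s) → ZMod p //
          MvPolynomial.aeval t (D r s) = 0} * p ≤ C r s * p ^ (s * r + s * s)) ∧
      ∀ (p : ℕ) [Fact p.Prime], p ≠ 2 → ∀ (K : Type) [Field K] [NumberField K],
      ¬ p ∣ classNumber K → ∀ (s : ℕ)
        (t : (Fin s × Fin (Units.rank K)) ⊕ (Fin s × Fin s) → ZMod p),
      ((∀ ζ : K, ¬ IsPrimitiveRoot ζ p) → ∀ P : Fin s → Ideal (𝓞 K), Table p K P t →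
        ∀ S' : Set (Ideal (𝓞 K)), S'.Finite →
        (∀ Q ∈ S', Q.IsMaximal → (p : 𝓞 K) ∉ Q → p ∣ Nat.card (𝓞 K ⧸ Q) - 1 → ∃ i, P i = Q) →
        ∀ (A : Type) [CommRing A] [IsLocalRing A] [IsNoetherianRing A] [TopologicalSpace A]
        [CharP (ResidueField A) p] [Finite (ResidueField A)] [IsAdicComplete (maximalIdeal A) A],
        IsAdic (maximalIdeal A) → ∀ (m : ℕ) (ρ : G K →* GL (Fin m) A), Continuous ρ →
        TameAt K S' ρ → ProjectivelyP p (residual ρ) →
        (m = 2 ∧ Special p t) ∨ (MvPolynomial.aeval t (D (Units.rank K) s) ≠ 0 ∧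
          Condition p n (Units.rank K) P ρ) →
        (Set.range ρ).Finite) ∧
      (¬ (p : ℤ) ∣ discr K → Special p t ∨ MvPolynomial.aeval t (D (Units.rank K) s) ≠ 0 →
        ∀ B : Set (Ideal (𝓞 K)), B.Finite →
        ∃ P : Fin s → Ideal (𝓞 K), (∀ i, P i ∉ B) ∧ Table p K P t) := by
  choose D C hC hD using Helper91.GS.exists_polC n
  refine ⟨D, C, fun r s p _ => hC r s p, ?_⟩
  intro p _ hp2 K _ _ hcl s t
  have htb : Helper91.GS.tb (fun i a => t (Sum.inl (i, a))) (fun i j => t (Sum.inr (i, j))) = t := by
    funext i
    rcases i with i | i <;> rfl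
  constructor
  · intro hζ P hT S' hS' hSS A _ _ _ _ _ _ _ hA m ρ hρ hTame hres hdim
    obtain ⟨v, c, L, π, k, hv, hTab⟩ := table_iff.1 hT
    have hSS' : ∀ Q ∈ S', Q.IsMaximal → (p : 𝓞 K) ∉ Q → p ∣ Nat.card (𝓞 K ⧸ Q) - 1 →
        ∃ i, (v i).asIdeal = Q := by
      intro Q hQ h1 h2 h3
      obtain ⟨i, hi⟩ := hSS Q hQ h1 h2 h3
      exact ⟨i, (hv i).trans hi⟩
    have hgen := Helper91.GS.gen_fund (p := p) hζ
    rcases hdim with ⟨rfl, hsp⟩ | ⟨hne, hdim⟩
    · exact Helper6.GS.finite_raw2 hp2 hcl hgen hTab (special_ne hsp) hS' hSS' A hA ρ hρ hTame hres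
        (Or.inr (special_trig hp2 _ hsp))
    rw [← htb] at hne
    obtain ⟨hM, hT1, hT2, hT3, hT4⟩ := hD _ _ p hp2 _ _ hne
    rcases hdim with ⟨rfl, hs⟩ | ⟨hm, hn, hs⟩ | ⟨rfl, hU⟩ | ⟨hs, hU⟩
    · exact Helper6.GS.finite_raw2 hp2 hcl hgen hTab hM hS' hSS' A hA ρ hρ hTame hres
        (Or.inr (Helper91.GS.trig_of_rrig (hT2 hs)))
    · exact Helper56.GS.finite_raw hp2 hn hcl hgen hTab hM (hT3 hs) hS' hSS' A hA hm ρ hρ hTame hres
    · refine Helper6.GS.finite_raw2 hp2 hcl hgen hTab hM hS' hSS' A hA ρ hρ hTame hres
        (Or.inl ⟨hT1, hU.imp (fun h => ?_) id⟩)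
      intro Q hQ hQP τ hτ
      refine h Q hQ ?_ τ hτ
      rwa [show P = fun i => (v i).asIdeal from funext fun i => (hv i).symm]
    · refine Helper6.GS.finite_nil_raw hp2 hcl hgen hTab hM hS' hSS'
        (Helper91.GS.nrig_of_nil _ (hT4 hs)) A hA ρ hρ hTame hres ?_
      intro Q hQ hQP τ hτ
      refine hU Q hQ ?_ τ hτ
      rwa [show P = fun i => (v i).asIdeal from funext fun i => (hv i).symm]
  · intro hdisc hne B hB
    have hM : ∀ i, t (Sum.inr (i, i)) ≠ 0 := by
      rcases hne with hsp | hne
      · exact special_ne hsp
      · rw [← htb] at hne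
        exact (hD _ _ p hp2 _ _ hne).1
    obtain ⟨v, c, L, π, k, hvB, hTab⟩ := Helper45.GS.exists_tab hp2 hdisc hcl (Units.fundSystem K)
      (fun m h i => Helper45.TC.fund_indep m h i) (fun i a => t (Sum.inl (i, a)))
      (fun i j => t (Sum.inr (i, j))) hM (B := {w | w.asIdeal ∈ B})
      (hB.preimage (fun a _ b _ h => IsDedekindDomain.HeightOneSpectrum.ext h))
    exact ⟨fun i => (v i).asIdeal, hvB, table_iff.2 ⟨v, c, L, π, k, fun _ => rfl, hTab⟩⟩

/-- The inequality of Golod and Shafarevich for `2 r + 3` primes. -/
theorem golod {r : ℕ} (h : 3 ≤ r) : 4 * (2 * r + 3) ≤ ((2 * r + 3) - r) ^ 2 := by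
  have h1 : 2 * r + 3 - r = r + 3 := by omega
  rw [h1]
  nlinarith

/-- If `16 n ^ 2 ≤ r`, then the number `s` of primes can be chosen in the second case of `Condition`
such that the inequality of Golod and Shafarevich is satisfied. -/
theorem exists_size {n r : ℕ} (hn : 2 ≤ n) (h : 16 * n ^ 2 ≤ r) : ∃ s, r + 2 * (n - 1) ≤ s ∧
    2 * (n - 1) * (s - r) ≤ (n - 1) * (2 * n - 1) + r ∧ 4 * s ≤ (s - r) ^ 2 := by
  obtain ⟨d, h1, h2, h3, -⟩ := Helper45.TC.exists_d h
  refine ⟨r + d, ?_, ?_, ?_⟩
  · have h4 : n ≤ d := by
      by_contra h5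
      push Not at h5
      have h6 : d ^ 2 ≤ n ^ 2 := Nat.pow_le_pow_left h5.le 2
      nlinarith
    by_contra h5
    push Not at h5
    have h6 : d ≤ 2 * (n - 1) := by omega
    have h7 : d ≤ 2 * n := by omega
    have h8 : d ^ 2 ≤ (2 * n) ^ 2 := Nat.pow_le_pow_left h7 2
    nlinarith
  · rw [Nat.add_sub_cancel_left]
    obtain ⟨m, rfl⟩ : ∃ m, n = m + 2 := ⟨n - 2, by omega⟩
    obtain ⟨e, rfl⟩ : ∃ e, d = e + 2 := ⟨d - 2, by omega⟩
    have h4 : m + 2 - 1 = m + 1 := by omega
    have h5 : 2 * (e + 2) - 3 = 2 * e + 1 := by omega
    have h6 : 2 * (m + 2) - 1 = 2 * m + 3 := by omega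
    rw [h4, h5] at h2
    rw [h4, h6]
    nlinarith
  · rw [Nat.add_sub_cancel_left]
    exact h3

end Pool.Agent.Results.MP_924d78_nt.GenericSets
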