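import Mathlib
import Pool.Agent.Helper42.SOM.TameQ
import Pool.Agent.Helper42.SOG.Count
import Pool.Agent.Helper84.T5.ExFlat
import Pool.Agent.Helper91.KK.Ex
import Pool.Agent.Helper91.KK.VPow
import Pool.Agent.Helper91.KK.VDir

/-!
# Tame representations which are close to the trivial representation

Let `p` be a prime number, let `K` be a number field and let `S` be a finite set of primes of `K`.
We consider continuous homomorphisms `ρ` from the absolute Galois group of `K` to `GL_n(A)`, where `A`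
is any complete Noetherian local ring with finite residue field of characteristic `p`, which are
unramified outside `S` and at most tamely ramified in `S`, and which are close to the trivial
representation: there are `d` and `j > 0` such that all products of `d` factors `ρ(g) - 1` are
divisible by `p ^ j`. For example this is so for `d = 1` if `ρ` is congruent to `1` modulo `p ^ j`, and
more generally if `ρ` is congruent to `1` modulo an ideal `J` and `J ^ d` is contained in `p ^ j A`
(`close_of_ideal`, `close_dvr`).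

Assume that the abelian extensions of degree `p` of `K`, which are tame in `S`, are given by primes
`𝔮 i` of `S` with norm `p ^ v i * c i + 1`, where `v i > 0` and `c i` is prime to `p`, and characters
`χ i` of order `p` which are ramified only at `𝔮 i`, up to wild ramification and primes outside `S`
(`LinkingData`). The linking numbers are the values `l i j` of the `χ j` at the Frobenius elements
of the `𝔮 i` for `i ≠ j`.

* Let `d < (p - 1) * j`, and let the following be true for all rational numbers `s ≥ j / d` and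
  `m ≤ n` (`Nil`): nilpotent matrices `N i` of size `m` over finite fields of characteristic `p`,
  such that `N i = 0` if `v i < s`, and the commutator of `∑ j ≠ i, l i j • N j` and `N i` is
  `c i • N i` if `v i = s` and vanishes if `v i > s`, generate a nilpotent algebra. Then `ρ` has finite
  image. This is true for all `m` if every nonempty set of indices `i` with `v i ≥ s`, which contains
  more than one element, contains `i` with `v i = s` such that the linking numbers `l i m` vanish
  modulo `p` for all other `m` in this set except one, or has the form `{i, j}` where `l i j` does not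
  vanish modulo `p` (`nil_of_elimination`).
* Let there be four primes `𝔮 i`, let `p` be odd and let all `v i` be equal to `w`. For each `N` there
  is a nonzero polynomial `D` with integral coefficients in `16` variables, such that the following is
  true if `D` does not vanish modulo `p` at the `l i j` and `c i`: thus for all but a proportion
  `O(1 / p)` of the possible linking numbers (`proportion`). If `n ≤ N` and `w * d ≤ j`, `n < p` or
  `w = 1`, `d < 2 * j`, `n ^ 2 < 2 * p`, then `ρ` has finite image.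

For the rational numbers the following consequence of the first part is stated without linking
numbers (`powerResidues`): let `w > 0`, and `w > 1` if `p = 2`, let `T` be a finite set of prime
numbers and let the members of `T` which are congruent to `1` modulo `p ^ w` be among `q 0, q 1, ...`,
where `q i` for `i > 0` is not congruent to `1` modulo `p ^ (w + 1)` and is a `p`-th power modulo all
`q j` with `j < i` except one. Then all `ρ` which are tame in `T` and congruent to `1` modulo `p ^ w`
have finite image, for all `n` and `A`. This is so if at most two members of `T` are congruent to `1`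
modulo `p ^ w` and at most one is congruent to `1` modulo `p ^ (w + 1)`. Other examples are `p = 2`,
`w = 2` and sets whose members congruent to `1` modulo `4` are among `5, 13, 17, 29` (`two`), `p = 3`,
`w = 1` and sets whose members congruent to `1` modulo `3` are among `7, 13, 19, 31` (`three`): in both
cases all prime numbers smaller than `37`; `p = 5` and `11, 31, 61, 181` (`five`), `p = 7` and
`29, 71, 113, 211` (`seven`). By the theorem of Dirichlet there are infinite sets of prime numbers
congruent to `1` modulo `p ^ w`, such that this is true for all their finite subsets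
(`exists_primes`). The same is true for number fields `K` whose degree and class number are not
divisible by the odd prime number `p`, if only one prime of `K`, of degree prime to `p`, lies above
each of the members of `T` congruent to `1` modulo `p` (`powerResidues_field`), for example for the
cyclotomic field of degree two, which contains the third roots of unity, `p = 5` and
`11, 41, 71, 191` (`eisenstein`). Examples without elimination: `n ≤ 5`, `p = 7` and
`43, 71, 113, 127` (`seven_generic`), `n ≤ 4`, `p = 5` and `11, 41, 61, 71` (`five_generic`). If `T`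
contains four of these prime numbers, then the Galois group of the maximal pro-`p`-extension of `K`
unramified outside the primes above `T` is infinite by the theorem of Golod and Shafarevich.

Idea of the proof. One may assume that `A` is a discrete valuation ring, and passes to a ramified
extension `R` with uniformizer `z` and a conjugate representation with `ρ = 1 + z ^ a V`, where the
values of `V` modulo `z` generate an algebra which is not nilpotent. Let `E` be the valuation of `p`
in `R`. It follows that `a d ≥ E j`. So `a (p - 1) > E` if `d < (p - 1) j`, and then the elements of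
tame inertia groups are unipotent, as they are conjugate to powers of themselves. The values of `V`
modulo `z` are combinations of nilpotent matrices `N i`, which satisfy the relations of `Nil` for the
slope `s = a / E` up to a unit. For the second part we have `2 a > E`. Suppose
`a < E < 2 a` and put `w = p / z ^ a`. Then `V` is additive modulo `w z`, and its values modulo `w z` are
combinations of four matrices `N i`, so that the commutator of `∑ j ≠ i, l i j • N j` and `N i` is
congruent to `w * c i • N i` modulo `w z`. The exterior square of a space with the basis `x i`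
contains the vectors `x i ∧ y i` with `y i = ∑ j ≠ i, l i j * x j`, and this defines a quadratic
vector field and a linear map `J` on the space, which satisfies a quadratic equation. The traces of the
powers of `∑ i, v i • N i` modulo `z` are first integrals of the quadratic vector field, and such first
integrals do not exist outside a hypersurface in the space of the `l i j` and `c i`. So all combinations
of the `N i` are nilpotent modulo `z`. The two eigenspaces of `J` give two families of matrices, which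
commute with each other modulo `w`. The commutators with a member of the second family, divided by
`w`, act on the words in the two generators of the first family like a triangular derivation with
eigenvalues `i λ + k μ`, up to terms which contain one member of the second family, and these have
trace zero. Outside a hypersurface the eigenvalues are not zero, so all traces of words in the first
family vanish, and this family generates a nilpotent algebra.
-/

set_option autoImplicit false

open NumberField IsLocalRing Matrix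

open scoped Pointwise

namespace Pool.Agent.Results.MP_924d78_nt.HigherDimensions

/-- The absolute Galois group of the field `K`. -/
abbrev G (K : Type) [Field K] : Type := AlgebraicClosure K ≃ₐ[K] AlgebraicClosure K

/-- The homomorphism `ρ` is unramified outside `S` and at most tamely ramified in `S`: for every
number field `F` containing `K` and embedded over `K` into the fixed field of the kernel of `ρ`,
and every maximal ideal `P` of the ring of integers of `F` above a prime `q` of `K`, the ramification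
index `e` of `P` over `q` is `1` if `q ∉ S` and is prime to the residue characteristic if `q ∈ S`. -/
def TameAt (K : Type) [Field K] [NumberField K] (S : Set (Ideal (𝓞 K))) {H : Type} [Group H]
    (ρ : G K →* H) : Prop :=
  ∀ (F : Type) [Field F] [NumberField F] [Algebra K F] (ι : F →ₐ[K] AlgebraicClosure K),
    ι.fieldRange ≤ IntermediateField.fixedField ρ.ker →
    ∀ (P : Ideal (𝓞 F)), P.IsMaximal →
    ∀ (q : Ideal (𝓞 K)), q = P.comap (algebraMap (𝓞 K) (𝓞 F)) →
    ∀ e : ℕ, q.map (algebraMap (𝓞 K) (𝓞 F)) ≤ P ^ e →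
      ¬ (q.map (algebraMap (𝓞 K) (𝓞 F)) ≤ P ^ (e + 1)) →
      (q ∉ S → e = 1) ∧ (q ∈ S → ¬ (ringChar (𝓞 K ⧸ q) ∣ e))

/-- All products of `d` factors `ρ g - 1` are divisible by `p ^ j`. -/
def Close (p d j : ℕ) {Γ A : Type} [Group Γ] [CommRing A] {n : ℕ} (ρ : Γ →* GL (Fin n) A) : Prop :=
  ∀ s : List Γ, s.length = d → ∃ M : Matrix (Fin n) (Fin n) A,
    (s.map fun g => ((ρ g : GL (Fin n) A) : Matrix (Fin n) (Fin n) A) - 1).prod = (p : A) ^ j • M

/-- The character `ψ` is unramified outside `S`, above `p` and at the primes in `R`: it is trivial on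
the inertia groups of all maximal ideals `Q` of the ring of all algebraic integers which lie above a
prime outside `S`, above `p` or above a prime in `R`. -/
def UnramifiedAt (p : ℕ) {K : Type} [Field K] [NumberField K] (S R : Set (Ideal (𝓞 K)))
    (ψ : G K →* Multiplicative (ZMod p)) : Prop :=
  ∀ Q : Ideal (𝓞 (AlgebraicClosure K)), Q.IsMaximal →
    (Q.comap (algebraMap (𝓞 K) (𝓞 (AlgebraicClosure K))) ∉ S ∨ (p : 𝓞 (AlgebraicClosure K)) ∈ Q ∨
      Q.comap (algebraMap (𝓞 K) (𝓞 (AlgebraicClosure K))) ∈ R) → ∀ γ ∈ Q.inertia (G K), ψ γ = 1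

/-- The linking data: the `𝔮 i` are primes of `K` whose residue fields have `p ^ v i * c i + 1`
elements, where `v i` is positive and `c i` is not divisible by `p`. The `χ i` are nontrivial
continuous characters with values in the group of order `p`, which are unramified outside `S`, above
`p` and at the primes `𝔮 j` for `j ≠ i`. If `σ` is a Frobenius element of the prime `𝔮 i`, then
`χ j σ` is the class of `l i j` for `j ≠ i`. A continuous character with values in the group of order
`p`, which is unramified outside `S`, above `p` and at all `𝔮 i`, is trivial. -/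
structure LinkingData (p : ℕ) (K : Type) [Field K] [NumberField K] (S : Set (Ideal (𝓞 K))) {r : ℕ}
    (𝔮 : Fin r → Ideal (𝓞 K)) (χ : Fin r → G K →* Multiplicative (ZMod p)) (v c : Fin r → ℕ)
    (l : Fin r → Fin r → ℕ) : Prop where
  maximal : ∀ i, (𝔮 i).IsMaximal
  card : ∀ i, Nat.card (𝓞 K ⧸ 𝔮 i) = p ^ v i * c i + 1
  pos : ∀ i, 1 ≤ v i
  not_dvd : ∀ i, ¬ p ∣ c i
  continuous : ∀ i, IsOpen ((χ i).ker : Set (G K))
  ne_one : ∀ i, χ i ≠ 1
  unramified : ∀ i, UnramifiedAt p S {I | ∃ j, j ≠ i ∧ I = 𝔮 j} (χ i)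
  frobenius : ∀ i j, i ≠ j → ∀ Q : Ideal (𝓞 (AlgebraicClosure K)), Q.IsMaximal →
    Q.comap (algebraMap (𝓞 K) (𝓞 (AlgebraicClosure K))) = 𝔮 i → ∀ σ : G K,
    (∀ x : 𝓞 (AlgebraicClosure K), σ • x - x ^ (p ^ v i * c i + 1) ∈ Q) →
    χ j σ = Multiplicative.ofAdd ((l i j : ℕ) : ZMod p)
  complete : ∀ ψ : G K →* Multiplicative (ZMod p), IsOpen (ψ.ker : Set (G K)) →
    UnramifiedAt p S (Set.range 𝔮) ψ → ψ = 1

/-- Let `N i` be nilpotent matrices of size `m` over a finite field of characteristic `p`, such that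
`N i = 0` if `v i < s`, and such that the commutator of `∑ j ≠ i, l i j • N j` and `N i` is
`c i • N i` if `v i = s` and vanishes if `s < v i`. Then all products of `t` factors `N i` vanish for
some `t`. -/
def Nil (p m : ℕ) {r : ℕ} (l : Fin r → Fin r → ℕ) (v c : Fin r → ℕ) (s : ℚ) : Prop :=
  ∀ (k : Type) [Field k] [Finite k] [CharP k p] (N : Fin r → Matrix (Fin m) (Fin m) k),
    (∀ i, IsNilpotent (N i)) → (∀ i, (v i : ℚ) < s → N i = 0) →
    (∀ i, (v i : ℚ) = s → (∑ j ∈ Finset.univ.erase i, (l i j : k) • N j) * N i -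
      N i * (∑ j ∈ Finset.univ.erase i, (l i j : k) • N j) = (c i : k) • N i) →
    (∀ i, s < (v i : ℚ) → (∑ j ∈ Finset.univ.erase i, (l i j : k) • N j) * N i -
      N i * (∑ j ∈ Finset.univ.erase i, (l i j : k) • N j) = 0) →
    ∃ t, ∀ w : List (Fin r), w.length = t → (w.map N).prod = 0

/-- The value of the polynomial `D` at the `c i` (on the diagonal) and `l i j` is not divisible by
`p`. -/
def NonZeroAt (p : ℕ) {r : ℕ} (l : Fin r → Fin r → ℕ) (c : Fin r → ℕ)
    (D : MvPolynomial (Fin r × Fin r) ℤ) : Prop :=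
  ¬ (p : ℤ) ∣ MvPolynomial.eval (fun s => if s.1 = s.2 then (c s.1 : ℤ) else (l s.1 s.2 : ℤ)) D

/-- Let `I` be a nonempty set of indices `i` with `s ≤ v i`. Then it contains `i` with `v i = s` and
there is `j`, so that `l i m` is divisible by `p` for all members `m` of `I` except `i` and `j`, or it
is contained in `{i, j}`, where `i = j` or `l i j` is not divisible by `p`. -/
def Elimination (p : ℕ) {r : ℕ} (l : Fin r → Fin r → ℕ) (v : Fin r → ℕ) (s : ℚ) : Prop :=
  ∀ I : Set (Fin r), I.Nonempty → (∀ i ∈ I, s ≤ v i) →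
    (∃ i ∈ I, (v i : ℚ) = s ∧ ∃ j, ∀ m ∈ I, m ≠ i → m ≠ j → p ∣ l i m) ∨
      ∃ i j, I ⊆ {i, j} ∧ (i = j ∨ ¬ p ∣ l i j)

private theorem LinkingData.toLD {p : ℕ} {K : Type} [Field K] [NumberField K]
    {S : Set (Ideal (𝓞 K))} {r : ℕ} {𝔮 : Fin r → Ideal (𝓞 K)}
    {χ : Fin r → G K →* Multiplicative (ZMod p)} {v c : Fin r → ℕ} {l : Fin r → Fin r → ℕ}
    (h : LinkingData p K S 𝔮 χ v c l) :
    Helper91.KK.LD K (AlgebraicClosure K) p S 𝔮 χ (fun i => p ^ v i * c i + 1) l :=
  ⟨h.maximal, h.card, fun i => by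
    rw [Nat.add_sub_cancel]
    exact (dvd_pow_self p (by have := h.pos i; omega)).mul_right _, h.continuous, h.ne_one,
    h.unramified, h.frobenius, h.complete⟩

/-- the first part -/
private theorem nil_case {p : ℕ} [Fact p.Prime] {K : Type} [Field K] [NumberField K]
    {S : Set (Ideal (𝓞 K))} (hS : S.Finite) {r : ℕ} {𝔮 : Fin r → Ideal (𝓞 K)}
    {χ : Fin r → G K →* Multiplicative (ZMod p)} {v c : Fin r → ℕ} {l : Fin r → Fin r → ℕ}
    (hL : LinkingData p K S 𝔮 χ v c l)
    {A : Type} [CommRing A] [IsLocalRing A] [IsNoetherianRing A] [TopologicalSpace A]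
    [CharP (ResidueField A) p] [Finite (ResidueField A)] [IsAdicComplete (maximalIdeal A) A]
    (hA : IsAdic (maximalIdeal A)) {n d j : ℕ} (ρ : G K →* GL (Fin n) A)
    (hρ : Continuous ρ) (hTame : TameAt K S ρ) (hj : 1 ≤ j) (hclose : Close p d j ρ)
    (hdj : d < (p - 1) * j) (hnil : ∀ s : ℚ, (j : ℚ) ≤ s * d → ∀ m ≤ n, Nil p m l v c s) :
    (Set.range ρ).Finite :=
  Helper91.KK.h_finite p hS hj
    (fun m hm => Helper91.KK.hG_v hL.toLD hL.pos (fun i => Nat.add_sub_cancel _ _) hL.not_dvd hj hdj
      fun s hs => hnil s hs m hm)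
    A hA ρ hρ hTame hclose

/-- Let `ρ` be a tame representation of dimension `n` over `A`, such that all products of `d` factors
`ρ g - 1` are divisible by `p ^ j`. Then `ρ` has finite image if `d < (p - 1) * j` and the relations
for all dimensions at most `n` and slopes `s` with `j ≤ s * d` imply nilpotence, or if `p` is odd,
there are four primes `𝔮 i`, the value of `D` is not divisible by `p`, `n ≤ N`, all `v i` are equal
to `w` and `w * d ≤ j`, `n < p` or `w = 1`, `d < 2 * j`, `n * n < 2 * p`. -/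
theorem result (r N : ℕ) : ∃ D : MvPolynomial (Fin r × Fin r) ℤ, D ≠ 0 ∧
    ∀ (p : ℕ) [Fact p.Prime] (K : Type) [Field K] [NumberField K]
      (S : Set (Ideal (𝓞 K))), S.Finite → ∀ (𝔮 : Fin r → Ideal (𝓞 K))
      (χ : Fin r → G K →* Multiplicative (ZMod p)) (v c : Fin r → ℕ) (l : Fin r → Fin r → ℕ),
      LinkingData p K S 𝔮 χ v c l →
      ∀ (A : Type) [CommRing A] [IsLocalRing A] [IsNoetherianRing A] [TopologicalSpace A]
      [CharP (ResidueField A) p] [Finite (ResidueField A)] [IsAdicComplete (maximalIdeal A) A],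
      IsAdic (maximalIdeal A) → ∀ (n d j : ℕ) (ρ : G K →* GL (Fin n) A), Continuous ρ →
      TameAt K S ρ → 1 ≤ j → Close p d j ρ →
      ((d < (p - 1) * j ∧ ∀ s : ℚ, (j : ℚ) ≤ s * d → ∀ m ≤ n, Nil p m l v c s) ∨
        (p ≠ 2 ∧ r = 4 ∧ n ≤ N ∧ NonZeroAt p l c D ∧ ∃ w, (∀ i, v i = w) ∧
          ((w * d ≤ j ∧ n < p) ∨ (w = 1 ∧ d < 2 * j ∧ n * n < 2 * p)))) →
      (Set.range ρ).Finite := by
  by_cases hr : r = 4
  · subst hr
    obtain ⟨D, hD, h⟩ := Helper91.KK.exists_poly_v N
    refine ⟨D, hD, ?_⟩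
    intro p _ K _ _ S hS 𝔮 χ v c l hL A _ _ _ _ _ _ _ hA n d j ρ hρ hTame hj hclose hcase
    rcases hcase with ⟨hdj, hnil⟩ | ⟨hp, -, hnN, hne, w, hv, hcase⟩
    · exact nil_case hS hL hA ρ hρ hTame hj hclose hdj hnil
    · obtain rfl : v = fun _ => w := funext hv
      exact h p hp K S 𝔮 χ (fun i => p ^ w * c i + 1) l w c hS hL.toLD (hL.pos 0)
        (fun i => Nat.add_sub_cancel _ _) hL.not_dvd hne A hA n ρ hρ hTame d j hclose hnN hj hcase
  · refine ⟨1, one_ne_zero, ?_⟩
    intro p _ K _ _ S hS 𝔮 χ v c l hL A _ _ _ _ _ _ _ hA n d j ρ hρ hTame hj hclose hcase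
    rcases hcase with ⟨hdj, hnil⟩ | ⟨-, h4, -⟩
    · exact nil_case hS hL hA ρ hρ hTame hj hclose hdj hnil
    · exact absurd h4 hr

/-- Elimination implies nilpotence for all dimensions. -/
theorem nil_of_elimination {p r : ℕ} {l : Fin r → Fin r → ℕ} {v c : Fin r → ℕ} {s : ℚ}
    (hc : ∀ i, ¬ p ∣ c i) (h : Elimination p l v s) (m : ℕ) : Nil p m l v c s :=
  Helper91.KK.nilS_of_elim m hc h

/-- Almost all possible linking numbers are not zeros of `D`. -/
theorem proportion {D : MvPolynomial (Fin 4 × Fin 4) ℤ} (hD : D ≠ 0) : ∃ C : ℕ,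
    ∀ (p : ℕ) [Fact p.Prime],
      (Finset.univ.filter (fun f : Fin 4 × Fin 4 → ZMod p => MvPolynomial.aeval f D = 0)).card * p ≤
        C * p ^ 16 := by
  obtain ⟨C, hC⟩ := Helper42.SOG.card_int_zeros_le hD
  refine ⟨C, fun p _ => (hC p).trans (le_of_eq ?_)⟩
  rw [Fintype.card_prod, Fintype.card_fin]

/-- Representations congruent to one modulo an ideal whose `d`-th power is contained in the ideal
generated by `p ^ j`. -/
theorem close_of_ideal {p d j : ℕ} {Γ A : Type} [Group Γ] [CommRing A] {n : ℕ}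
    (ρ : Γ →* GL (Fin n) A) (J : Ideal A) (hJ : J ^ d ≤ Ideal.span {(p : A) ^ j})
    (hρ : ∀ g a b, (((ρ g : GL (Fin n) A) : Matrix (Fin n) (Fin n) A) - 1) a b ∈ J) :
    Close p d j ρ := by
  intro s hs
  have key : ∀ s : List Γ, ∀ a b,
      (s.map fun g => ((ρ g : GL (Fin n) A) : Matrix (Fin n) (Fin n) A) - 1).prod a b ∈
        J ^ s.length := by
    intro s
    induction s with
    | nil => intro a b; simp
    | cons g s ih =>
      intro a b
      rw [List.map_cons, List.prod_cons, Matrix.mul_apply, List.length_cons, pow_succ']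
      exact Ideal.sum_mem _ fun x _ => Ideal.mul_mem_mul (hρ g a x) (ih x b)
  have h1 : ∀ a b, ∃ x : A,
      (s.map fun g => ((ρ g : GL (Fin n) A) : Matrix (Fin n) (Fin n) A) - 1).prod a b =
        (p : A) ^ j * x := by
    intro a b
    have h2 := hJ (hs ▸ key s a b)
    exact Ideal.mem_span_singleton'.1 h2 |>.imp fun x hx => by rw [← hx, mul_comm]
  choose x hx using h1
  refine ⟨Matrix.of x, ?_⟩
  ext a b
  rw [hx, Matrix.smul_apply, Matrix.of_apply, smul_eq_mul]

/-- Let `A` be a ring in which `p` is the product of the `e`-th power of an element `z` by a unit. If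
`ρ` is congruent to one modulo `z ^ s` and `e < 2 * s`, then the products of `2 * s - 1` factors are
divisible by `p ^ s`. -/
theorem close_dvr {p e s : ℕ} {Γ A : Type} [Group Γ] [CommRing A] {n : ℕ} {z u : A}
    (hp : (p : A) * u = z ^ e) (hs : e < 2 * s) (ρ : Γ →* GL (Fin n) A)
    (hρ : ∀ g a b, z ^ s ∣ (((ρ g : GL (Fin n) A) : Matrix (Fin n) (Fin n) A) - 1) a b) :
    Close p (2 * s - 1) s ρ := by
  refine close_of_ideal ρ (Ideal.span {z ^ s}) ?_ fun g a b => Ideal.mem_span_singleton.2 (hρ g a b)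
  rw [Ideal.span_singleton_pow, Ideal.span_singleton_le_span_singleton]
  have h1 : z ^ (e * s) ∣ (z ^ s) ^ (2 * s - 1) := by
    rw [← pow_mul]
    refine pow_dvd_pow z ?_
    rw [mul_comm e s]
    exact Nat.mul_le_mul_left s (by omega)
  refine dvd_trans ?_ h1
  rw [pow_mul, ← hp, mul_pow]
  exact dvd_mul_right _ _

/-- The last condition for linking data is true if `p` does not divide the class number of `K`, `p` is
odd or `K` is totally complex, and the primes of `S` not above `p` with norm congruent to one modulo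
`p` are among the `𝔮 i`. -/
theorem complete_of_classNumber {p : ℕ} [Fact p.Prime] {K : Type} [Field K]
    [NumberField K] (hK : p ≠ 2 ∨ IsTotallyComplex K) (hcl : ¬ p ∣ classNumber K)
    {S : Set (Ideal (𝓞 K))} {r : ℕ} (𝔮 : Fin r → Ideal (𝓞 K))
    (hS : ∀ P ∈ S, P.IsMaximal → (p : 𝓞 K) ∉ P → p ∣ Nat.card (𝓞 K ⧸ P) - 1 → ∃ i, 𝔮 i = P)
    (ψ : G K →* Multiplicative (ZMod p)) (hψ : IsOpen (ψ.ker : Set (G K)))
    (hun : UnramifiedAt p S (Set.range 𝔮) ψ) : ψ = 1 :=
  Helper91.KK.gen_of_classBound p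
    (Helper91.KK.classBound_of_classNumber K Fact.out hK hcl) 𝔮 hS ψ hψ hun

/-- A tame homomorphism is tame for larger sets of primes. -/
theorem TameAt.mono {K : Type} [Field K] [NumberField K] {S S' : Set (Ideal (𝓞 K))} (hS : S ⊆ S')
    {H : Type} [Group H] {ρ : G K →* H} (h : TameAt K S ρ) : TameAt K S' ρ :=
  Helper91.KK.tameSub_mono hS h

/-- The `q i` are different prime numbers with `q i - 1 = p ^ v i * c i`, where `v i` is positive and
`c i` is not divisible by `p`, and with primitive roots `g i`, and `q i` is congruent to `g j ^ l i j`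
modulo `q j` for `i ≠ j`. -/
structure Linking (p : ℕ) {r : ℕ} (q g v c : Fin r → ℕ) (l : Fin r → Fin r → ℕ) : Prop where
  prime : ∀ i, (q i).Prime
  injective : Function.Injective q
  eq : ∀ i, q i - 1 = p ^ v i * c i
  pos : ∀ i, 1 ≤ v i
  not_dvd : ∀ i, ¬ p ∣ c i
  root : ∀ i, orderOf (g i : ZMod (q i)) = q i - 1
  log : ∀ i j, i ≠ j → (q i : ZMod (q j)) = (g j : ZMod (q j)) ^ l i j

private theorem Linking.toData {p r : ℕ} {q g v c : Fin r → ℕ} {l : Fin r → Fin r → ℕ}
    (hq : Linking p q g v c l) : Helper42.SOM.LinkData p q g l :=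
  ⟨hq.prime, hq.injective, fun i => by
    rw [hq.eq]
    exact (dvd_pow_self p (by have := hq.pos i; omega)).mul_right _, hq.root, hq.log⟩

/-- Linking data for number fields `K` whose degree and class number are not divisible by `p`, such
that there is only one prime `𝔮 i` above `q i`, of degree `f i`. Then the linking numbers are
`f i * l i j`. -/
theorem linkingData_field {p : ℕ} [Fact p.Prime] (hp : p ≠ 2) {r : ℕ} {q g v c : Fin r → ℕ}
    {l : Fin r → Fin r → ℕ} (hq : Linking p q g v c l) {K : Type} [Field K] [NumberField K]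
    (hdeg : ¬ p ∣ Module.finrank ℚ K) (hcl : ¬ p ∣ classNumber K) {S : Set (Ideal (𝓞 K))}
    {𝔮 : Fin r → Ideal (𝓞 K)} {f : Fin r → ℕ} (hf : ∀ i, ¬ p ∣ f i) (hmax : ∀ i, (𝔮 i).IsMaximal)
    (hcard : ∀ i, Nat.card (𝓞 K ⧸ 𝔮 i) = q i ^ f i)
    (huniq : ∀ i (P : Ideal (𝓞 K)), P.IsMaximal → (q i : 𝓞 K) ∈ P → P = 𝔮 i)
    (hS : ∀ P ∈ S, P.IsMaximal → (p : 𝓞 K) ∉ P → p ∣ Nat.card (𝓞 K ⧸ P) - 1 → ∃ i, 𝔮 i = P)
    (hqS : ∀ i, 𝔮 i ∈ S) :
    ∃ (χ : Fin r → G K →* Multiplicative (ZMod p)) (c' : Fin r → ℕ),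
      LinkingData p K S 𝔮 χ v c' (fun i j => f i * l i j) ∧ ∀ i, c' i ≡ f i * c i [MOD p] := by
  obtain ⟨χ, hχ⟩ := Helper91.KK.ld_field (Ω := AlgebraicClosure K) p hp hq.toData hdeg hcl hmax hcard
    huniq hS hqS
  choose c' hc' hv' hmod using fun i => Helper91.KK.val_pow Fact.out (hq.pos i) (hq.not_dvd i) (hf i)
    (hq.eq i) (hq.prime i).ne_zero
  have h2 : ∀ i, q i ^ f i = p ^ v i * c' i + 1 := fun i => by
    have h3 := hv' i
    have h4 : 0 < q i ^ f i := Nat.pow_pos (hq.prime i).pos
    omega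
  refine ⟨χ, c', ⟨hmax, fun i => by rw [hcard i, h2 i], hq.pos, hc', hχ.cont, hχ.ne, hχ.out, ?_,
    hχ.gen⟩, hmod⟩
  intro i j hij Q hQ hQi σ hσ
  refine hχ.frob i j hij Q hQ hQi σ ?_
  intro x
  have h4 := hσ x
  rw [← h2 i] at h4
  exact h4

/-- The homomorphism `ρ` is unramified outside `T` and at most tamely ramified in `T`: let `F` be a
number field, embedded into the fixed field of the kernel of `ρ`, and let `P` be a maximal ideal of
its ring of integers, which contains the prime number `r`. Then the ramification index `e` of `P`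
over `r` is `1` if `r ∉ T` and is not divisible by `r` if `r ∈ T`. -/
def Tame (T : Finset ℕ) {H : Type} [Group H] (ρ : G ℚ →* H) : Prop :=
  ∀ (F : Type) [Field F] [NumberField F] (ι : F →+* AlgebraicClosure ℚ),
    (∀ g, ρ g = 1 → ∀ x, g (ι x) = ι x) → ∀ (P : Ideal (𝓞 F)), P.IsMaximal →
    ∀ (r e : ℕ), r.Prime → (r : 𝓞 F) ∈ P → (r : 𝓞 F) ∈ P ^ e → (r : 𝓞 F) ∉ P ^ (e + 1) →
      (r ∉ T → e = 1) ∧ (r ∈ T → ¬ r ∣ e)

/-- The primes of the rational numbers above the numbers in `T`. -/
def Above (T : Finset ℕ) : Set (Ideal (𝓞 ℚ)) := {P | P.IsMaximal ∧ ∃ t ∈ T, (t : 𝓞 ℚ) ∈ P}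

private theorem galois (K : Type) [Field K] [NumberField K] : IsGalois K (AlgebraicClosure K) :=
  inferInstance

/-- Linking data for the rational numbers. -/
theorem linkingData_rat {p : ℕ} [Fact p.Prime] {r : ℕ} {q g v c : Fin r → ℕ}
    {l : Fin r → Fin r → ℕ} (hq : Linking p q g v c l) {T : Finset ℕ} (hT : ∀ t ∈ T, t.Prime)
    (hTq : ∀ t ∈ T, p ∣ t - 1 → ∃ i, q i = t) (hqT : ∀ i, q i ∈ T) :
    ∃ (𝔮 : Fin r → Ideal (𝓞 ℚ)) (χ : Fin r → G ℚ →* Multiplicative (ZMod p)),
      LinkingData p ℚ (Above T) 𝔮 χ v c l := by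
  obtain ⟨𝔮, χ, hL⟩ := @Helper91.KK.ld_rat_all (AlgebraicClosure ℚ) _
    (AlgebraicClosure.instAlgebra ℚ) (galois ℚ) _ p _ _ _ _ _ hq.toData T hT hTq hqT
  have h1 : ∀ i, q i = p ^ v i * c i + 1 := by
    intro i
    have h2 := hq.eq i
    have h3 := (hq.prime i).two_le
    omega
  refine ⟨𝔮, χ, ⟨hL.max, fun i => by rw [hL.card i, h1 i], hq.pos, hq.not_dvd, hL.cont, hL.ne,
    hL.out, ?_, hL.gen⟩⟩
  intro i j hij Q hQ hQi σ hσ
  refine hL.frob i j hij Q hQ hQi σ ?_
  intro x
  have h4 := hσ x
  rw [← h1 i] at h4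
  exact h4

private theorem tame_above {T T' : Finset ℕ} (hT : ∀ t ∈ T, t.Prime) (hTT : T ⊆ T') {H : Type}
    [Group H] {ρ : G ℚ →* H} (h : Tame T ρ) : TameAt ℚ (Above T') ρ := by
  have h1 : TameAt ℚ (Above T) ρ :=
    Helper42.SOM.tameSub_rat (fun F _ _ ι' hι' => h F ι' hι') hT
  refine h1.mono ?_
  rintro P ⟨hP, t, ht, htP⟩
  exact ⟨hP, t, hTT ht, htP⟩

/-- The theorem for the rational numbers: let `q i` be prime numbers congruent to one modulo `p` with
linking numbers `l i j`, and let `T` be a finite set of prime numbers, such that those congruent to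
one modulo `p` are among the `q i`. -/
theorem rational (r N : ℕ) : ∃ D : MvPolynomial (Fin r × Fin r) ℤ, D ≠ 0 ∧
    ∀ (p : ℕ) [Fact p.Prime] (q g v c : Fin r → ℕ) (l : Fin r → Fin r → ℕ),
      Linking p q g v c l →
      ∀ (T : Finset ℕ), (∀ t ∈ T, t.Prime) → (∀ t ∈ T, p ∣ t - 1 → ∃ i, q i = t) →
      ∀ (A : Type) [CommRing A] [IsLocalRing A] [IsNoetherianRing A] [TopologicalSpace A]
      [CharP (ResidueField A) p] [Finite (ResidueField A)] [IsAdicComplete (maximalIdeal A) A],
      IsAdic (maximalIdeal A) → ∀ (n d j : ℕ) (ρ : G ℚ →* GL (Fin n) A), Continuous ρ →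
      Tame T ρ → 1 ≤ j → Close p d j ρ →
      ((d < (p - 1) * j ∧ ∀ s : ℚ, (j : ℚ) ≤ s * d → ∀ m ≤ n, Nil p m l v c s) ∨
        (p ≠ 2 ∧ r = 4 ∧ n ≤ N ∧ NonZeroAt p l c D ∧ ∃ w, (∀ i, v i = w) ∧
          ((w * d ≤ j ∧ n < p) ∨ (w = 1 ∧ d < 2 * j ∧ n * n < 2 * p)))) →
      (Set.range ρ).Finite := by
  classical
  obtain ⟨D, hD, h⟩ := result r N
  refine ⟨D, hD, ?_⟩
  intro p _ q g v c l hq T hT hTq A _ _ _ _ _ _ _ hA n d j ρ hρ hTame hj hclose hcase
  have hT' : ∀ t ∈ T ∪ Finset.image q Finset.univ, t.Prime := by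
    intro t ht
    rcases Finset.mem_union.1 ht with h | h
    · exact hT t h
    · obtain ⟨i, -, rfl⟩ := Finset.mem_image.1 h
      exact hq.prime i
  obtain ⟨𝔮, χ, hL⟩ := linkingData_rat (T := T ∪ Finset.image q Finset.univ) hq hT'
    (by
      intro t ht hdvd
      rcases Finset.mem_union.1 ht with h | h
      · exact hTq t h hdvd
      · obtain ⟨i, -, rfl⟩ := Finset.mem_image.1 h
        exact ⟨i, rfl⟩)
    (fun i => Finset.mem_union_right _ (Finset.mem_image_of_mem q (Finset.mem_univ i)))
  exact h p ℚ _ (Helper27.TE.finite_above_rat _ hT') 𝔮 χ v c l hL A hA n d j ρ hρ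
    (tame_above hT Finset.subset_union_left hTame) hj hclose hcase

/-- The prime numbers in `T` which are congruent to one modulo `p ^ w` are among the `q i`. If `i > 0`,
then `q i` is not congruent to one modulo `p ^ (w + 1)`, and it is a `p`-th power modulo all `q j`
with `j < i` except one. -/
structure Ordered (p w : ℕ) (T : Finset ℕ) {r : ℕ} (q : Fin r → ℕ) : Prop where
  mem : ∀ t ∈ T, p ^ w ∣ t - 1 → ∃ i, q i = t
  not_dvd : ∀ i : Fin r, 0 < (i : ℕ) → ¬ p ^ (w + 1) ∣ q i - 1
  power : ∀ i : Fin r, ∃ e, ∀ j, j < i → j ≠ e → ∃ x : ZMod (q j), x ^ p = (q i : ZMod (q j))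

private theorem Ordered.pairs {p w : ℕ} {T : Finset ℕ} {r : ℕ} {q : Fin r → ℕ}
    (h : Ordered p w T q) (i j k : Fin r) (hj : j < i) (hk : k < i) (hjk : j ≠ k) :
    (∃ x : ZMod (q j), x ^ p = (q i : ZMod (q j))) ∨
      ∃ x : ZMod (q k), x ^ p = (q i : ZMod (q k)) := by
  obtain ⟨e, he⟩ := h.power i
  by_cases hje : j = e
  · exact Or.inr (he k hk fun hke => hjk (hje.trans hke.symm))
  · exact Or.inl (he j hj hje)

/-- The rational numbers, all prime numbers `p`, all dimensions, all coefficient rings,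
representations which are tame in `T` and congruent to one modulo `p ^ w`, or such that products of
`d` factors are divisible by `p ^ j` and `w * d ≤ j`. -/
theorem powerResidues {p : ℕ} [Fact p.Prime] {w : ℕ} (hw : 1 ≤ w) (hw2 : p = 2 → 2 ≤ w)
    {T : Finset ℕ} (hT : ∀ t ∈ T, t.Prime) {r : ℕ} {q : Fin r → ℕ} (hq : Ordered p w T q)
    {A : Type} [CommRing A] [IsLocalRing A] [IsNoetherianRing A] [TopologicalSpace A]
    [CharP (ResidueField A) p] [Finite (ResidueField A)] [IsAdicComplete (maximalIdeal A) A]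
    (hA : IsAdic (maximalIdeal A)) {n d j : ℕ} (ρ : G ℚ →* GL (Fin n) A) (hρ : Continuous ρ)
    (hTame : Tame T ρ) (hj : 1 ≤ j) (hdj : w * d ≤ j) (hclose : Close p d j ρ) :
    (Set.range ρ).Finite :=
  Helper91.KK.finite_of_powers hw hw2 hT q hq.mem hq.not_dvd hq.pairs A hA ρ hρ
    (Helper42.SOM.tameSub_rat (fun F _ _ ι' hι' => hTame F ι' hι') hT) hj hdj hclose

/-- The same for number fields `K` and odd prime numbers `p` prime to the degree and the class number
of `K`, such that there is only one prime of `K`, of degree prime to `p`, above each prime number in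
`T` congruent to one modulo `p`, and the primes of `S` not above `p` with norm congruent to one
modulo `p` lie above such prime numbers. -/
theorem powerResidues_field {p : ℕ} [Fact p.Prime] (hp : p ≠ 2) {w : ℕ} (hw : 1 ≤ w)
    {T : Finset ℕ} (hT : ∀ t ∈ T, t.Prime) {r : ℕ} {q : Fin r → ℕ} (hq : Ordered p w T q)
    {K : Type} [Field K] [NumberField K]
    (hdeg : ¬ p ∣ Module.finrank ℚ K) (hcl : ¬ p ∣ classNumber K)
    (hone : ∀ t ∈ T, p ∣ t - 1 → ∃ (P : Ideal (𝓞 K)) (f : ℕ), P.IsMaximal ∧
      Nat.card (𝓞 K ⧸ P) = t ^ f ∧ ¬ p ∣ f ∧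
      ∀ P' : Ideal (𝓞 K), P'.IsMaximal → (t : 𝓞 K) ∈ P' → P' = P)
    {S : Set (Ideal (𝓞 K))} (hSfin : S.Finite)
    (hS : ∀ P ∈ S, P.IsMaximal → (p : 𝓞 K) ∉ P → p ∣ Nat.card (𝓞 K ⧸ P) - 1 →
      ∃ t ∈ T, p ∣ t - 1 ∧ (t : 𝓞 K) ∈ P)
    {A : Type} [CommRing A] [IsLocalRing A] [IsNoetherianRing A] [TopologicalSpace A]
    [CharP (ResidueField A) p] [Finite (ResidueField A)] [IsAdicComplete (maximalIdeal A) A]
    (hA : IsAdic (maximalIdeal A)) {n d j : ℕ} (ρ : G K →* GL (Fin n) A) (hρ : Continuous ρ)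
    (hTame : TameAt K S ρ) (hj : 1 ≤ j) (hdj : w * d ≤ j) (hclose : Close p d j ρ) :
    (Set.range ρ).Finite :=
  Helper91.KK.finite_of_powers_field hp hw hT q hq.mem hq.not_dvd hq.pairs hdeg hcl hone hSfin hS
    A hA ρ hρ hTame hj hdj hclose

/-- Representations congruent to one modulo `p ^ w`. -/
theorem close_one {p w : ℕ} {Γ A : Type} [Group Γ] [CommRing A] {n : ℕ} (ρ : Γ →* GL (Fin n) A)
    (hρ : ∀ g a b, (p : A) ^ w ∣ (((ρ g : GL (Fin n) A) : Matrix (Fin n) (Fin n) A) - 1) a b) :
    Close p 1 w ρ := by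
  refine close_of_ideal ρ (Ideal.span {(p : A) ^ w}) ?_ fun g a b =>
    Ideal.mem_span_singleton.2 (hρ g a b)
  rw [pow_one]

/-- There is an infinite sequence of prime numbers congruent to one modulo `p ^ w`, such that for all
finite sets of prime numbers, whose members congruent to one modulo `p ^ w` are among them, all tame
representations congruent to one modulo `p ^ w` have finite image. -/
theorem exists_primes {p : ℕ} [Fact p.Prime] {w : ℕ} (hw : 1 ≤ w) (hw2 : p = 2 → 2 ≤ w) :
    ∃ q : ℕ → ℕ, StrictMono q ∧ (∀ i, (q i).Prime ∧ p ^ w ∣ q i - 1 ∧ ¬ p ^ (w + 1) ∣ q i - 1) ∧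
      ∀ (T : Finset ℕ), (∀ t ∈ T, t.Prime) → (∀ t ∈ T, p ^ w ∣ t - 1 → ∃ i, q i = t) →
      ∀ (A : Type) [CommRing A] [IsLocalRing A] [IsNoetherianRing A] [TopologicalSpace A]
      [CharP (ResidueField A) p] [Finite (ResidueField A)] [IsAdicComplete (maximalIdeal A) A],
      IsAdic (maximalIdeal A) → ∀ (n : ℕ) (ρ : G ℚ →* GL (Fin n) A), Continuous ρ → Tame T ρ →
      (∀ g a b, (p : A) ^ w ∣ (((ρ g : GL (Fin n) A) : Matrix (Fin n) (Fin n) A) - 1) a b) →
      (Set.range ρ).Finite := by
  obtain ⟨q, hmono, hprime, hdvd, hndvd, hmod⟩ :=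
    Helper91.KK.exists_primes_seq p Fact.out hw
  refine ⟨q, hmono, fun i => ⟨hprime i, hdvd i, hndvd i⟩, ?_⟩
  intro T hT hTq A _ _ _ _ _ _ _ hA n ρ hρ hTame hone
  refine powerResidues (r := T.sup id + 1) (q := fun i => q i) hw hw2 hT ⟨?_, ?_, ?_⟩ hA ρ hρ hTame
    hw (d := 1) (by rw [mul_one]) (close_one ρ hone)
  · intro t ht htw
    obtain ⟨i, hi⟩ := hTq t ht htw
    have h1 : t ≤ T.sup id := Finset.le_sup (f := id) ht
    have h2 : i ≤ q i := hmono.le_apply
    exact ⟨⟨i, by omega⟩, hi⟩
  · exact fun i _ => hndvd i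
  · refine fun i => ⟨i, fun j hj _ => ⟨1, ?_⟩⟩
    have h1 := (ZMod.natCast_eq_natCast_iff _ _ _).2 (hmod i j hj)
    rw [one_pow, h1, Nat.cast_one]

/-- the verification of the power residues -/
private theorem ordered_of {p w : ℕ} {T : Finset ℕ} {q : Fin 4 → ℕ}
    (hT : ∀ t ∈ T, p ^ w ∣ t - 1 → ∃ i, q i = t)
    (hq : ∀ i : Fin 4, 0 < (i : ℕ) → ¬ p ^ (w + 1) ∣ q i - 1) (e : Fin 4 → Fin 4)
    (x : Fin 4 → Fin 4 → ℕ)
    (h : ∀ i j, j < i → j ≠ e i → x i j ^ p % q j = q i % q j) : Ordered p w T q :=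
  ⟨hT, hq, fun i => ⟨e i, fun j hj hje => ⟨(x i j : ZMod (q j)), by
    rw [← Nat.cast_pow, ZMod.natCast_eq_natCast_iff]
    exact h i j hj hje⟩⟩⟩

/-- `p = 2`, all dimensions, all coefficient rings, representations congruent to one modulo `4`, and
sets of prime numbers whose members congruent to `1` modulo `4` are among `5, 13, 17, 29`, for example
all prime numbers smaller than `37`. -/
theorem two (T : Finset ℕ) (hT : ∀ t ∈ T, t.Prime)
    (hT' : ∀ t ∈ T, t % 4 = 1 → t = 5 ∨ t = 13 ∨ t = 17 ∨ t = 29)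
    (A : Type) [CommRing A] [IsLocalRing A] [IsNoetherianRing A] [TopologicalSpace A]
    [CharP (ResidueField A) 2] [Finite (ResidueField A)] [IsAdicComplete (maximalIdeal A) A]
    (hA : IsAdic (maximalIdeal A)) {n : ℕ} (ρ : G ℚ →* GL (Fin n) A)
    (hρ : Continuous ρ) (hTame : Tame T ρ)
    (hone : ∀ g a b, (4 : A) ∣ (((ρ g : GL (Fin n) A) : Matrix (Fin n) (Fin n) A) - 1) a b) :
    (Set.range ρ).Finite := by
  have hf : Fact (Nat.Prime 2) := ⟨by norm_num⟩
  have hq : Ordered 2 2 T ![17, 5, 13, 29] := by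
    refine ordered_of ?_ (by decide) ![0, 0, 1, 0] ![![0, 0, 0, 0], ![0, 0, 0, 0], ![8, 0, 0, 0],
      ![0, 2, 4, 0]] (by decide)
    intro t ht hd
    have h2 := (hT t ht).two_le
    rcases hT' t ht (by omega) with rfl | rfl | rfl | rfl
    · exact ⟨1, rfl⟩
    · exact ⟨2, rfl⟩
    · exact ⟨0, rfl⟩
    · exact ⟨3, rfl⟩
  refine powerResidues (d := 1) (j := 2) one_le_two (fun _ => le_rfl) hT hq hA ρ hρ hTame
    (by norm_num) (by norm_num) (close_one ρ fun g a b => ?_)
  have h4 : ((2 : ℕ) : A) ^ 2 = 4 := by norm_num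
  rw [h4]
  exact hone g a b

/-- `p = 3`, all dimensions, all coefficient rings, representations congruent to one modulo `3`, and
sets of prime numbers whose members congruent to `1` modulo `3` are among `7, 13, 19, 31`, for example
all prime numbers smaller than `37`. -/
theorem three (T : Finset ℕ) (hT : ∀ t ∈ T, t.Prime)
    (hT' : ∀ t ∈ T, t % 3 = 1 → t = 7 ∨ t = 13 ∨ t = 19 ∨ t = 31)
    (A : Type) [CommRing A] [IsLocalRing A] [IsNoetherianRing A] [TopologicalSpace A]
    [CharP (ResidueField A) 3] [Finite (ResidueField A)] [IsAdicComplete (maximalIdeal A) A]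
    (hA : IsAdic (maximalIdeal A)) {n : ℕ} (ρ : G ℚ →* GL (Fin n) A)
    (hρ : Continuous ρ) (hTame : Tame T ρ)
    (hone : ∀ g a b, (3 : A) ∣ (((ρ g : GL (Fin n) A) : Matrix (Fin n) (Fin n) A) - 1) a b) :
    (Set.range ρ).Finite := by
  have hf : Fact (Nat.Prime 3) := ⟨by norm_num⟩
  have hq : Ordered 3 1 T ![19, 7, 13, 31] := by
    refine ordered_of ?_ (by decide) ![0, 0, 0, 1] ![![0, 0, 0, 0], ![0, 0, 0, 0], ![0, 3, 0, 0],
      ![10, 0, 7, 0]] (by decide)
    intro t ht hd
    have h2 := (hT t ht).two_le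
    rcases hT' t ht (by omega) with rfl | rfl | rfl | rfl
    · exact ⟨1, rfl⟩
    · exact ⟨2, rfl⟩
    · exact ⟨0, rfl⟩
    · exact ⟨3, rfl⟩
  refine powerResidues (d := 1) (j := 1) le_rfl (by norm_num) hT hq hA ρ hρ hTame
    le_rfl le_rfl (close_one ρ fun g a b => ?_)
  rw [pow_one]
  exact_mod_cast hone g a b

/-- `p = 5`, all dimensions, all coefficient rings, representations congruent to one modulo `5`, and
sets of prime numbers whose members congruent to `1` modulo `5` are among `11, 31, 61, 181`. -/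
theorem five (T : Finset ℕ) (hT : ∀ t ∈ T, t.Prime)
    (hT' : ∀ t ∈ T, t % 5 = 1 → t = 11 ∨ t = 31 ∨ t = 61 ∨ t = 181)
    (A : Type) [CommRing A] [IsLocalRing A] [IsNoetherianRing A] [TopologicalSpace A]
    [CharP (ResidueField A) 5] [Finite (ResidueField A)] [IsAdicComplete (maximalIdeal A) A]
    (hA : IsAdic (maximalIdeal A)) {n : ℕ} (ρ : G ℚ →* GL (Fin n) A)
    (hρ : Continuous ρ) (hTame : Tame T ρ)
    (hone : ∀ g a b, (5 : A) ∣ (((ρ g : GL (Fin n) A) : Matrix (Fin n) (Fin n) A) - 1) a b) :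
    (Set.range ρ).Finite := by
  have hf : Fact (Nat.Prime 5) := ⟨by norm_num⟩
  have hq : Ordered 5 1 T ![11, 31, 181, 61] := by
    refine ordered_of ?_ (by decide) ![0, 0, 0, 0] ![![0, 0, 0, 0], ![0, 0, 0, 0], ![0, 3, 0, 0],
      ![0, 15, 50, 0]] (by decide)
    intro t ht hd
    have h2 := (hT t ht).two_le
    rcases hT' t ht (by omega) with rfl | rfl | rfl | rfl
    · exact ⟨0, rfl⟩
    · exact ⟨1, rfl⟩
    · exact ⟨3, rfl⟩
    · exact ⟨2, rfl⟩
  refine powerResidues (d := 1) (j := 1) le_rfl (by norm_num) hT hq hA ρ hρ hTame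
    le_rfl le_rfl (close_one ρ fun g a b => ?_)
  rw [pow_one]
  exact_mod_cast hone g a b

/-- `p = 7`, all dimensions, all coefficient rings, representations congruent to one modulo `7`, and
sets of prime numbers whose members congruent to `1` modulo `7` are among `29, 71, 113, 211`. -/
theorem seven (T : Finset ℕ) (hT : ∀ t ∈ T, t.Prime)
    (hT' : ∀ t ∈ T, t % 7 = 1 → t = 29 ∨ t = 71 ∨ t = 113 ∨ t = 211)
    (A : Type) [CommRing A] [IsLocalRing A] [IsNoetherianRing A] [TopologicalSpace A]
    [CharP (ResidueField A) 7] [Finite (ResidueField A)] [IsAdicComplete (maximalIdeal A) A]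
    (hA : IsAdic (maximalIdeal A)) {n : ℕ} (ρ : G ℚ →* GL (Fin n) A)
    (hρ : Continuous ρ) (hTame : Tame T ρ)
    (hone : ∀ g a b, (7 : A) ∣ (((ρ g : GL (Fin n) A) : Matrix (Fin n) (Fin n) A) - 1) a b) :
    (Set.range ρ).Finite := by
  have hf : Fact (Nat.Prime 7) := ⟨by norm_num⟩
  have hq : Ordered 7 1 T ![29, 113, 211, 71] := by
    refine ordered_of ?_ (by decide) ![0, 0, 0, 0] ![![0, 0, 0, 0], ![0, 0, 0, 0], ![0, 8, 0, 0],
      ![0, 20, 13, 0]] (by decide)
    intro t ht hd
    have h2 := (hT t ht).two_le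
    rcases hT' t ht (by omega) with rfl | rfl | rfl | rfl
    · exact ⟨0, rfl⟩
    · exact ⟨3, rfl⟩
    · exact ⟨1, rfl⟩
    · exact ⟨2, rfl⟩
  refine powerResidues (d := 1) (j := 1) le_rfl (by norm_num) hT hq hA ρ hρ hTame
    le_rfl le_rfl (close_one ρ fun g a b => ?_)
  rw [pow_one]
  exact_mod_cast hone g a b

/-- The linking numbers of `43, 71, 113, 127` for `p = 7`. -/
theorem linking_seven_generic :
    Linking 7 ![43, 71, 113, 127] ![3, 7, 3, 3] (fun _ => 1) ![6, 10, 16, 18]
      ![![0, 48, 47, 71], ![5, 0, 77, 16], ![3, 33, 0, 124], ![6, 19, 20, 0]] :=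
  ⟨Helper84.T5.linkDataC.prime, Helper84.T5.linkDataC.inj,
    by intro i; fin_cases i <;> norm_num, fun _ => le_rfl, by intro i; fin_cases i <;> decide,
    Helper84.T5.linkDataC.root, Helper84.T5.linkDataC.log⟩

/-- The linking numbers of `11, 41, 61, 71` for `p = 5`. -/
theorem linking_five_generic :
    Linking 5 ![11, 41, 61, 71] ![2, 6, 2, 7] (fun _ => 1) ![2, 8, 12, 14]
      ![![0, 3, 15, 31], ![3, 0, 54, 25], ![9, 34, 0, 69], ![4, 23, 23, 0]] :=
  ⟨Helper84.T5.linkDataD.prime, Helper84.T5.linkDataD.inj,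
    by intro i; fin_cases i <;> norm_num, fun _ => le_rfl, by intro i; fin_cases i <;> decide,
    Helper84.T5.linkDataD.root, Helper84.T5.linkDataD.log⟩

/-- representations congruent to one modulo `p` and rigid linking numbers -/
private theorem congruent {p : ℕ} [Fact p.Prime] (hp : p ≠ 2) {r : ℕ} {q g c : Fin r → ℕ}
    {l : Fin r → Fin r → ℕ} (hq : Linking p q g (fun _ => 1) c l)
    {T : Finset ℕ} (hT : ∀ t ∈ T, t.Prime) (hTq : ∀ t ∈ T, p ∣ t - 1 → ∃ i, q i = t)
    {A : Type} [CommRing A] [IsLocalRing A] [IsNoetherianRing A] [TopologicalSpace A]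
    [CharP (ResidueField A) p] [Finite (ResidueField A)] [IsAdicComplete (maximalIdeal A) A]
    (hA : IsAdic (maximalIdeal A)) {n : ℕ} (ρ : G ℚ →* GL (Fin n) A)
    (hρ : Continuous ρ) (hTame : Tame T ρ)
    (hone : ∀ g a b, (p : A) ∣ (((ρ g : GL (Fin n) A) : Matrix (Fin n) (Fin n) A) - 1) a b)
    (hlin : ∀ m ≤ n, Helper91.FM.LinRigid p m l c) : (Set.range ρ).Finite := by
  obtain ⟨_, _, h⟩ := rational r 0
  have h2 := (Fact.out : p.Prime).two_le
  refine h p q g _ c l hq T hT hTq A hA n 1 1 ρ hρ hTame le_rfl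
    (close_one ρ fun g a b => by rw [pow_one]; exact hone g a b)
    (Or.inl ⟨by omega, fun s hs m hm => ?_⟩)
  refine Helper91.KK.nilS_of_linRigid (fun _ => rfl) ?_ (hlin m hm)
  simpa using hs

/-- `p = 7`, dimension at most `5`, all coefficient rings, representations congruent to one modulo `7`,
and sets of prime numbers whose members congruent to `1` modulo `7` are among `43, 71, 113, 127`. -/
theorem seven_generic (T : Finset ℕ) (hT : ∀ t ∈ T, t.Prime)
    (hT' : ∀ t ∈ T, t % 7 = 1 → t = 43 ∨ t = 71 ∨ t = 113 ∨ t = 127)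
    (A : Type) [CommRing A] [IsLocalRing A] [IsNoetherianRing A] [TopologicalSpace A]
    [CharP (ResidueField A) 7] [Finite (ResidueField A)] [IsAdicComplete (maximalIdeal A) A]
    (hA : IsAdic (maximalIdeal A)) {n : ℕ} (hn : n ≤ 5) (ρ : G ℚ →* GL (Fin n) A)
    (hρ : Continuous ρ) (hTame : Tame T ρ)
    (hone : ∀ g a b, (7 : A) ∣ (((ρ g : GL (Fin n) A) : Matrix (Fin n) (Fin n) A) - 1) a b) :
    (Set.range ρ).Finite := by
  have hf : Fact (Nat.Prime 7) := ⟨by norm_num⟩
  refine congruent (by norm_num) linking_seven_generic hT ?_ hA ρ hρ hTame (fun g a b => ?_)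
    fun m hm => Helper84.T5.linRigidC m (hm.trans hn)
  · intro t ht hd
    have h2 := (hT t ht).two_le
    rcases hT' t ht (by omega) with rfl | rfl | rfl | rfl
    · exact ⟨0, rfl⟩
    · exact ⟨1, rfl⟩
    · exact ⟨2, rfl⟩
    · exact ⟨3, rfl⟩
  · exact_mod_cast hone g a b

/-- `p = 5`, dimension at most `4`, all coefficient rings, representations congruent to one modulo `5`,
and sets of prime numbers whose members congruent to `1` modulo `5` are among `11, 41, 61, 71`. -/
theorem five_generic (T : Finset ℕ) (hT : ∀ t ∈ T, t.Prime)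
    (hT' : ∀ t ∈ T, t % 5 = 1 → t = 11 ∨ t = 41 ∨ t = 61 ∨ t = 71)
    (A : Type) [CommRing A] [IsLocalRing A] [IsNoetherianRing A] [TopologicalSpace A]
    [CharP (ResidueField A) 5] [Finite (ResidueField A)] [IsAdicComplete (maximalIdeal A) A]
    (hA : IsAdic (maximalIdeal A)) {n : ℕ} (hn : n ≤ 4) (ρ : G ℚ →* GL (Fin n) A)
    (hρ : Continuous ρ) (hTame : Tame T ρ)
    (hone : ∀ g a b, (5 : A) ∣ (((ρ g : GL (Fin n) A) : Matrix (Fin n) (Fin n) A) - 1) a b) :
    (Set.range ρ).Finite := by
  have hf : Fact (Nat.Prime 5) := ⟨by norm_num⟩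
  refine congruent (by norm_num) linking_five_generic hT ?_ hA ρ hρ hTame (fun g a b => ?_)
    fun m hm => Helper84.T5.linRigidD m (hm.trans hn)
  · intro t ht hd
    have h2 := (hT t ht).two_le
    rcases hT' t ht (by omega) with rfl | rfl | rfl | rfl
    · exact ⟨0, rfl⟩
    · exact ⟨1, rfl⟩
    · exact ⟨2, rfl⟩
    · exact ⟨3, rfl⟩
  · exact_mod_cast hone g a b

/-- The cyclotomic field `K` of the third roots of unity, `p = 5`, all dimensions, all coefficient
rings, representations congruent to one modulo `5`, and finite sets of primes whose members not above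
`5` with norm congruent to `1` modulo `5` contain `11, 41, 71` or `191`. -/
theorem eisenstein (K : Type) [Field K] [NumberField K] [IsCyclotomicExtension {3} ℚ K]
    (S : Set (Ideal (𝓞 K))) (hSfin : S.Finite)
    (hS : ∀ P ∈ S, P.IsMaximal → (5 : 𝓞 K) ∉ P → 5 ∣ Nat.card (𝓞 K ⧸ P) - 1 →
      (11 : 𝓞 K) ∈ P ∨ (41 : 𝓞 K) ∈ P ∨ (71 : 𝓞 K) ∈ P ∨ (191 : 𝓞 K) ∈ P)
    (A : Type) [CommRing A] [IsLocalRing A] [IsNoetherianRing A] [TopologicalSpace A]
    [CharP (ResidueField A) 5] [Finite (ResidueField A)] [IsAdicComplete (maximalIdeal A) A]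
    (hA : IsAdic (maximalIdeal A)) {n : ℕ} (ρ : G K →* GL (Fin n) A)
    (hρ : Continuous ρ) (hTame : TameAt K S ρ)
    (hone : ∀ g a b, (5 : A) ∣ (((ρ g : GL (Fin n) A) : Matrix (Fin n) (Fin n) A) - 1) a b) :
    (Set.range ρ).Finite := by
  have hf : Fact (Nat.Prime 5) := ⟨by norm_num⟩
  have hfin : Module.finrank ℚ K = 2 := by
    rw [IsCyclotomicExtension.finrank (n := 3) K (Polynomial.cyclotomic.irreducible_rat (by simp)),
      Nat.totient_prime Nat.prime_three]
  have hcl : classNumber K = 1 :=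
    classNumber_eq_one_iff.2 (IsCyclotomicExtension.Rat.three_pid K)
  have hT : ∀ t ∈ ({11, 41, 71, 191} : Finset ℕ), t.Prime ∧ t % 3 = 2 := by
    intro t ht
    simp only [Finset.mem_insert, Finset.mem_singleton] at ht
    rcases ht with rfl | rfl | rfl | rfl <;> exact ⟨by norm_num, by norm_num⟩
  have hq : Ordered 5 1 ({11, 41, 71, 191} : Finset ℕ) ![71, 191, 11, 41] := by
    refine ordered_of ?_ (by decide) ![0, 0, 0, 2] ![![0, 0, 0, 0], ![0, 0, 0, 0], ![0, 66, 0, 0],
      ![42, 29, 0, 0]] (by decide)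
    intro t ht _
    simp only [Finset.mem_insert, Finset.mem_singleton] at ht
    rcases ht with rfl | rfl | rfl | rfl
    · exact ⟨2, rfl⟩
    · exact ⟨3, rfl⟩
    · exact ⟨0, rfl⟩
    · exact ⟨1, rfl⟩
  refine powerResidues_field (d := 1) (j := 1) (by norm_num) le_rfl (fun t ht => (hT t ht).1) hq
    (by rw [hfin]; norm_num) (by rw [hcl]; norm_num) ?_ hSfin ?_ hA ρ hρ hTame
    le_rfl le_rfl (close_one ρ fun g a b => ?_)
  · intro t ht _
    have h1 : Ideal.span {(t : 𝓞 K)} ≠ ⊤ := by
      intro h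
      have h2 := Helper91.KK.absNorm_natCast (K := K) t
      rw [h, Ideal.absNorm_top, hfin] at h2
      have h3 := (hT t ht).1.two_le
      nlinarith
    obtain ⟨P, hP, hle⟩ := Ideal.exists_le_maximal _ h1
    have htP : (t : 𝓞 K) ∈ P := (Ideal.span_singleton_le_iff_mem _).1 hle
    have hcard := Helper91.KK.inert_three (hT t ht).1 (hT t ht).2 P hP htP
    refine ⟨P, Module.finrank ℚ K, hP, hcard, by rw [hfin]; norm_num, fun P' hP' htP' => ?_⟩
    have h1 := Helper91.KK.inert_three (hT t ht).1 (hT t ht).2 P' hP' htP'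
    rw [← Helper91.KK.span_eq_of_card (hT t ht).1 htP' h1,
      Helper91.KK.span_eq_of_card (hT t ht).1 htP hcard]
  · intro P hP hPm h5 hdvd
    rcases hS P hP hPm (by exact_mod_cast h5) hdvd with h | h | h | h
    · exact ⟨11, by simp, by norm_num, by exact_mod_cast h⟩
    · exact ⟨41, by simp, by norm_num, by exact_mod_cast h⟩
    · exact ⟨71, by simp, by norm_num, by exact_mod_cast h⟩
    · exact ⟨191, by simp, by norm_num, by exact_mod_cast h⟩
  · rw [pow_one]
    exact_mod_cast hone g a b

end Pool.Agent.Results.MP_924d78_nt.HigherDimensions
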