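import Mathlib
import Pool.Agent.Helper42.SOM.All
import Pool.Agent.Helper42.SOG.Poly
import Pool.Agent.Helper42.SOG.NilEx
import Pool.Agent.Helper42.SOM.Ex5b
import Pool.Agent.Helper42.SOM.Root
import Pool.Agent.Helper42.SOM.TameQ
import Pool.Agent.Helper91.KK.LAll
import Pool.Agent.Helper91.KK.LNil
import Pool.Agent.Helper91.KK.Ex

/-!
# Tame representations and linking numbers of primes

Let `p` be an odd prime number, let `K` be a number field and let `S` be a finite set of primes of `K`.
We consider continuous homomorphisms `ρ` from the absolute Galois group of `K` to `GL_n(A)`, for an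
arbitrary complete Noetherian local ring `A` with finite residue field of characteristic `p`, which are
unramified outside `S`, at most tamely ramified in `S`, and whose projective residual image is a
`p`-group.

Assume that the abelian extensions of degree `p` of `K`, which are tame in `S`, are given by primes
`𝔮 i` of `S` whose norms are congruent to `1` modulo `p` but not modulo `p ^ 2`, and characters `χ i`
of order `p` which are ramified only at `𝔮 i`, up to wild ramification and primes outside `S`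
(`LinkingData`). The linking numbers are the values `l i j` of the `χ j` at the Frobenius elements
of the `𝔮 i` for `i ≠ j`, and `c i` is the norm of `𝔮 i` minus one divided by `p`.

Then `ρ` has finite image if the linking numbers satisfy a condition of linear algebra over the finite
fields of characteristic `p`. For `r` primes `𝔮 i`, the condition for `n = 2` and unipotent inertia, or
rings `A` without real roots of unity at their minimal primes, holds if a certain nonzero polynomial
with integral coefficients in `r ^ 2` variables, which depends only on `r`, does not vanish modulo `p`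
at the `l i j` and `c i`: thus for all but a proportion `O(1 / p)` of the possible linking numbers. The
same holds for `r = 4` and arbitrary `n`, if `(ρ τ - 1) ^ 2 = 0` for all elements `τ` of the inertia
groups at the `𝔮 i`.

The last condition of `LinkingData` is true if `p` does not divide the class number of `K` and all
primes of `S` not above `p` with norm congruent to `1` modulo `p` are among the `𝔮 i`
(`complete_of_classNumber`). For the rational numbers the `𝔮 i` are given by prime numbers `q i`, and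
the linking numbers are the discrete logarithms of `q i` modulo `q j` (`rational`). More
generally, let the degree and the class number of `K` be prime to `p`, and let each of these `q i`
have only one prime above it in `K`, of degree `f i`. Then there are linking data for `K` with the
linking numbers `f i * l i j` (`linkingData_field`). In this case, if `S` contains four of these primes,
then the Galois group of the maximal pro-`p`-extension of `K` unramified outside `S` is infinite by
the theorem of Golod and Shafarevich.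

Examples for the rational numbers:

* `n = 2`, `p = 3` and `7, 31, 43, 157`, or `p = 5` and `11, 61, 211, 271`, for all rings `A`
  (theorems `three` and `five`),
* `n = 2`, `p = 5` and `11, 31, 41, 61`, if inertia acts unipotently, in particular for all domains
  `A` such that `p ^ 2` is not in the power of the maximal ideal with exponent `p - 1`
  (theorem `five_small`), for instance for the ring of `5`-adic integers and power series rings
  over it, or if `A` has characteristic `5`,
* all `n`, `p = 3` and `7, 13, 151, 277`, or `p = 5` and `311, 331, 421, 941`, if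
  `(ρ τ - 1) ^ 2 = 0` for all elements `τ` of the inertia groups (theorems `three_all` and
  `five_all`).

Idea of the proof. One may assume that `A` is a discrete valuation ring with uniformiser `ϖ` and
that `ρ = 1 + ϖ ^ a φ` modulo `ϖ ^ (a + 1)`, where the values of `φ` generate an algebra which is not
commutative, respectively not nilpotent; here one uses that the open subgroups of the Galois group
have finite abelian quotients, as well as lattices
and the theorem of Burnside. The group is generated modulo the kernel of `φ` by elements `τ i` of the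
inertia groups at the `𝔮 i`, and a Frobenius element at `𝔮 i` is the product of the `τ j ^ l i j`
modulo this kernel and inertia at `𝔮 i`. The relation
`x τ x⁻¹ = τ ^ q` between a Frobenius element and inertia is compared modulo `ϖ ^ (2 a + 1)`. It
yields the equations in `Rigid` and `NilRigid` for `N i = φ (τ i)`: if `ϖ ^ a` is less divisible than
`p`, then `u = 0`, and `u ≠ 0` can occur if `ϖ ^ a` is exactly as divisible as `p`. The eigenvalues of
the images of the `τ i` are roots of unity of order `p` or `1`, up to a common factor, so that the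
determinants of the `N i` are, up to a common factor, squares in the prime field.

For `n = 2` and nilpotent `N i`, the equations have no solution which does not commute if the `l i j`
and `c i` are algebraically independent: a solution depends on less parameters than the number of
the conditions on the `l i j` and `c i`, in terms of transcendence degrees. For `r = 4` and arbitrary
`n` one considers the graded algebra with generators `N i` and `u` and the relations in question. At
the point with the linking matrix `[[0, 1, 0, 0], [0, 0, 1, -1], [1, -1, 0, -1], [1, 1, -1, 0]]` it is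
shown by hand that all words of a certain length vanish or are powers of `u`; then this is so outside
the zeros of a polynomial.
-/

set_option autoImplicit false

open NumberField IsLocalRing Matrix

open scoped Pointwise

namespace Pool.Agent.Helper91.Old.LinkingNumbers

/-- The absolute Galois group of the field `K`. -/
abbrev G (K : Type) [Field K] : Type := AlgebraicClosure K ≃ₐ[K] AlgebraicClosure K

/-- The homomorphism `ρ` is unramified outside `S` and at most tamely ramified in `S`: for every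
number field `F` containing `K` and embedded over `K` into the fixed field of the kernel of `ρ`,
and every maximal ideal `P` of the ring of integers of `F` above a prime `q` of `K`, the ramification
index `e` of `P` over `q` is `1` if `q ∉ S` and is prime to the residue characteristic if `q ∈ S`. -/
def TameAt (K : Type) [Field K] [NumberField K] (S : Set (Ideal (𝓞 K))) {H : Type} [Group H]
    (ρ : G K →* H) : Prop :=
  ∀ (F : Type) [Field F] [NumberField F] [Algebra K F] (ι : F →ₐ[K] AlgebraicClosure K),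
    ι.fieldRange ≤ IntermediateField.fixedField ρ.ker →
    ∀ (P : Ideal (𝓞 F)), P.IsMaximal →
    ∀ (q : Ideal (𝓞 K)), q = P.comap (algebraMap (𝓞 K) (𝓞 F)) →
    ∀ e : ℕ, q.map (algebraMap (𝓞 K) (𝓞 F)) ≤ P ^ e →
      ¬ (q.map (algebraMap (𝓞 K) (𝓞 F)) ≤ P ^ (e + 1)) →
      (q ∉ S → e = 1) ∧ (q ∈ S → ¬ (ringChar (𝓞 K ⧸ q) ∣ e))

/-- The residual representation: the reduction of `ρ` modulo the maximal ideal. -/
noncomputable def residual {Γ A : Type} [Group Γ] [CommRing A] [IsLocalRing A] {n : ℕ}
    (ρ : Γ →* GL (Fin n) A) : Γ →* GL (Fin n) (ResidueField A) :=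
  (Matrix.GeneralLinearGroup.map (residue A)).comp ρ

/-- The projective image of `τ` is a `p`-group: for every `g` some power of `τ g` with exponent a
power of `p` is scalar. -/
def ProjectivelyP (p : ℕ) {Γ k : Type} [Group Γ] [Field k] {n : ℕ} (τ : Γ →* GL (Fin n) k) : Prop :=
  ∀ g, ∃ (j : ℕ) (a : k), ((τ g ^ p ^ j : GL (Fin n) k) : Matrix (Fin n) (Fin n) k) = a • 1

/-- The character `ψ` is unramified outside `S`, above `p` and at the primes in `R`: it is trivial on
the inertia groups of all maximal ideals `Q` of the ring of all algebraic integers which lie above a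
prime outside `S`, above `p` or above a prime in `R`. -/
def UnramifiedAt (p : ℕ) {K : Type} [Field K] [NumberField K] (S R : Set (Ideal (𝓞 K)))
    (ψ : G K →* Multiplicative (ZMod p)) : Prop :=
  ∀ Q : Ideal (𝓞 (AlgebraicClosure K)), Q.IsMaximal →
    (Q.comap (algebraMap (𝓞 K) (𝓞 (AlgebraicClosure K))) ∉ S ∨ (p : 𝓞 (AlgebraicClosure K)) ∈ Q ∨
      Q.comap (algebraMap (𝓞 K) (𝓞 (AlgebraicClosure K))) ∈ R) → ∀ γ ∈ Q.inertia (G K), ψ γ = 1

/-- The linking data: the `𝔮 i` are primes of `K` whose residue fields have `p * c i + 1` elements,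
where `c i` is not divisible by `p`. The `χ i` are nontrivial continuous characters with values in the
group of order `p`, which are unramified outside `S`, above `p` and at the primes `𝔮 j` for `j ≠ i`. If
`σ` is a Frobenius element of the prime `𝔮 i`, then `χ j σ` is the class of `l i j` for `j ≠ i`.
A continuous character with values in the group of order `p`, which is unramified outside `S`, above
`p` and at all `𝔮 i`, is trivial. -/
structure LinkingData (p : ℕ) (K : Type) [Field K] [NumberField K] (S : Set (Ideal (𝓞 K))) {r : ℕ}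
    (𝔮 : Fin r → Ideal (𝓞 K)) (χ : Fin r → G K →* Multiplicative (ZMod p)) (c : Fin r → ℕ)
    (l : Fin r → Fin r → ℕ) : Prop where
  maximal : ∀ i, (𝔮 i).IsMaximal
  card : ∀ i, Nat.card (𝓞 K ⧸ 𝔮 i) = p * c i + 1
  not_dvd : ∀ i, ¬ p ∣ c i
  continuous : ∀ i, IsOpen ((χ i).ker : Set (G K))
  ne_one : ∀ i, χ i ≠ 1
  unramified : ∀ i, UnramifiedAt p S {I | ∃ j, j ≠ i ∧ I = 𝔮 j} (χ i)
  frobenius : ∀ i j, i ≠ j → ∀ Q : Ideal (𝓞 (AlgebraicClosure K)), Q.IsMaximal →
    Q.comap (algebraMap (𝓞 K) (𝓞 (AlgebraicClosure K))) = 𝔮 i → ∀ σ : G K,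
    (∀ x : 𝓞 (AlgebraicClosure K), σ • x - x ^ (p * c i + 1) ∈ Q) →
    χ j σ = Multiplicative.ofAdd ((l i j : ℕ) : ZMod p)
  complete : ∀ ψ : G K →* Multiplicative (ZMod p), IsOpen (ψ.ker : Set (G K)) →
    UnramifiedAt p S (Set.range 𝔮) ψ → ψ = 1

/-- Inertia at the primes `𝔮 i` acts unipotently: if an automorphism `τ` acts trivially on the ring of
all algebraic integers modulo a maximal ideal above one of the `𝔮 i`, then `ρ τ - 1` is nilpotent. -/
def Unipotent {K : Type} [Field K] [NumberField K] {r : ℕ} (𝔮 : Fin r → Ideal (𝓞 K)) {A : Type}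
    [CommRing A] {n : ℕ} (ρ : G K →* GL (Fin n) A) : Prop :=
  ∀ Q : Ideal (𝓞 (AlgebraicClosure K)), Q.IsMaximal →
    Q.comap (algebraMap (𝓞 K) (𝓞 (AlgebraicClosure K))) ∈ Set.range 𝔮 → ∀ τ : G K,
    (∀ x : 𝓞 (AlgebraicClosure K), τ • x - x ∈ Q) →
    IsNilpotent ((ρ τ : Matrix (Fin n) (Fin n) A) - 1)

/-- Inertia at the primes `𝔮 i` acts unipotently with exponent `e`: if an automorphism `τ` acts
trivially on the ring of all algebraic integers modulo a maximal ideal above one of the `𝔮 i`, then
`(ρ τ - 1) ^ e = 0`. -/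
def UnipotentExp {K : Type} [Field K] [NumberField K] {r : ℕ} (𝔮 : Fin r → Ideal (𝓞 K)) {A : Type}
    [CommRing A] {n : ℕ} (e : ℕ) (ρ : G K →* GL (Fin n) A) : Prop :=
  ∀ Q : Ideal (𝓞 (AlgebraicClosure K)), Q.IsMaximal →
    Q.comap (algebraMap (𝓞 K) (𝓞 (AlgebraicClosure K))) ∈ Set.range 𝔮 → ∀ τ : G K,
    (∀ x : 𝓞 (AlgebraicClosure K), τ • x - x ∈ Q) →
    ((ρ τ : Matrix (Fin n) (Fin n) A) - 1) ^ e = 0

/-- For no homomorphism from `A` to a field of characteristic zero, whose kernel is a minimal prime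
ideal, the image contains the sum of a primitive root of unity of order `p` and its inverse. -/
def NoRealRoot (p : ℕ) (A : Type) [CommRing A] : Prop :=
  ∀ (E : Type) [Field E] [CharZero E] (f : A →+* E), RingHom.ker f ∈ minimalPrimes A →
    ∀ z : E, IsPrimitiveRoot z p → z + z⁻¹ ∉ f.range

/-- Let `N i` be matrices of size `2` and trace `0` over a finite field `k` of characteristic `p` and
let `u` and `m` be in `k`, so that the commutator of `∑ j ≠ i, l i j • N j` and `N i` is
`(u * c i) • N i` for all `i`, and so that the determinants of the `N i` are multiples of `m` by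
squares of elements of the prime field if `u = 0`. Then the `N i` commute. Here `m = 0` unless `s`
holds. -/
def Rigid (p : ℕ) {r : ℕ} (l : Fin r → Fin r → ℕ) (c : Fin r → ℕ) (s : Prop) : Prop :=
  ∀ (k : Type) [Field k] [Finite k] [CharP k p] (N : Fin r → Matrix (Fin 2) (Fin 2) k) (u m : k),
    (m ≠ 0 → s) → (∀ i, (N i).trace = 0) → (u = 0 → ∀ i, ∃ a : ℕ, (N i).det = (a : k) ^ 2 * m) →
    (∀ i, (∑ j ∈ Finset.univ.erase i, (l i j : k) • N j) * N i -
      N i * (∑ j ∈ Finset.univ.erase i, (l i j : k) • N j) = (u * (c i : k)) • N i) →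
    ∀ i j, N i * N j = N j * N i

/-- Let `N i` be square matrices of any size over a finite field `k` of characteristic `p` and
let `u` be in `k`, so that `N i ^ e = 0` and the commutator of `∑ j ≠ i, l i j • N j` and `N i` is
`(u * c i) • N i` for all `i`. Then the `N i` generate a nilpotent algebra. -/
def NilRigid (p e : ℕ) {r : ℕ} (l : Fin r → Fin r → ℕ) (c : Fin r → ℕ) : Prop :=
  ∀ (n : ℕ) (k : Type) [Field k] [Finite k] [CharP k p] (N : Fin r → Matrix (Fin n) (Fin n) k)
    (u : k), (∀ i, N i ^ e = 0) →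
    (∀ i, (∑ j ∈ Finset.univ.erase i, (l i j : k) • N j) * N i -
      N i * (∑ j ∈ Finset.univ.erase i, (l i j : k) • N j) = (u * (c i : k)) • N i) →
    ∃ m : ℕ, ∀ s : List (Fin r), s.length = m → (s.map N).prod = 0

/-- The values of the polynomial `D` at the `c i` (on the diagonal) and `l i j` is not divisible by
`p`. -/
def NonZeroAt (p : ℕ) {r : ℕ} (l : Fin r → Fin r → ℕ) (c : Fin r → ℕ)
    (D : MvPolynomial (Fin r × Fin r) ℤ) : Prop :=
  ¬ (p : ℤ) ∣ MvPolynomial.eval (fun s => if s.1 = s.2 then (c s.1 : ℤ) else (l s.1 s.2 : ℤ)) D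

private theorem LinkingData.toLD {p : ℕ} {K : Type} [Field K] [NumberField K]
    {S : Set (Ideal (𝓞 K))} {r : ℕ} {𝔮 : Fin r → Ideal (𝓞 K)}
    {χ : Fin r → G K →* Multiplicative (ZMod p)} {c : Fin r → ℕ} {l : Fin r → Fin r → ℕ}
    (h : LinkingData p K S 𝔮 χ c l) :
    Helper91.KK.LD K (AlgebraicClosure K) p S 𝔮 χ (fun i => p * c i + 1) l :=
  ⟨h.maximal, h.card, fun i => ⟨c i, by simp⟩, h.continuous, h.ne_one, h.unramified, h.frobenius,
    h.complete⟩

/-- Let `ρ` be a tame representation of dimension `n` over `A` whose projective residual image is a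
`p`-group. Then `ρ` has finite image, if (1) `n = 2` and the linking numbers are rigid in the strong
sense, or (2) `n = 2`, and the value of `D` is not divisible by `p` or the linking numbers are rigid in
the weak sense, and inertia at the `𝔮 i` acts unipotently, or `A` has no real roots of unity at its
minimal primes, or (3) inertia at the `𝔮 i` acts unipotently with exponent `e`, and `e = 2`, `r = 4`
and the value of `D` is not divisible by `p`, or the linking numbers are rigid for `e` and all
dimensions. The polynomial `D ≠ 0` only depends on the number `r` of the primes. -/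
theorem result (r : ℕ) : ∃ D : MvPolynomial (Fin r × Fin r) ℤ, D ≠ 0 ∧
    ∀ (p : ℕ) [Fact p.Prime], p ≠ 2 → ∀ (K : Type) [Field K] [NumberField K]
      (S : Set (Ideal (𝓞 K))), S.Finite → ∀ (𝔮 : Fin r → Ideal (𝓞 K))
      (χ : Fin r → G K →* Multiplicative (ZMod p)) (c : Fin r → ℕ) (l : Fin r → Fin r → ℕ),
      LinkingData p K S 𝔮 χ c l →
      ∀ (A : Type) [CommRing A] [IsLocalRing A] [IsNoetherianRing A] [TopologicalSpace A]
      [CharP (ResidueField A) p] [Finite (ResidueField A)] [IsAdicComplete (maximalIdeal A) A],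
      IsAdic (maximalIdeal A) → ∀ (n : ℕ) (ρ : G K →* GL (Fin n) A), Continuous ρ →
      TameAt K S ρ → ProjectivelyP p (residual ρ) →
      ((n = 2 ∧ Rigid p l c True) ∨
        (n = 2 ∧ (NonZeroAt p l c D ∨ Rigid p l c False) ∧ (Unipotent 𝔮 ρ ∨ NoRealRoot p A)) ∨
        (∃ e, ((e = 2 ∧ r = 4 ∧ NonZeroAt p l c D) ∨ NilRigid p e l c) ∧ UnipotentExp 𝔮 e ρ)) →
      (Set.range ρ).Finite := by
  obtain ⟨D, hD, hgen⟩ := Helper42.SOG.exists_poly_fin r
  refine ⟨D, hD, ?_⟩
  intro p _ hp K _ _ S hS 𝔮 χ c l hL A _ _ _ _ _ _ _ hA n ρ hρ hTame hres h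
  have hR : ∀ s : Prop, Rigid p l c s → Helper42.SOM.RigidL p l c True s :=
    fun s hs k _ _ _ N u m _ hm htr hdet hrel => hs k N u m hm htr hdet hrel
  rcases h with ⟨rfl, h⟩ | ⟨rfl, h, hU⟩ | ⟨e, h, hU⟩
  · exact Helper91.KK.finite_projective p hp hS hL.toLD (fun i => by simp) hL.not_dvd A hA ρ hρ hTame
      hres (Or.inr (hR _ h))
  · refine Helper91.KK.finite_projective p hp hS hL.toLD (fun i => by simp) hL.not_dvd A hA ρ hρ
      hTame hres (Or.inl ⟨?_, hU⟩)
    rcases h with h | h
    · exact (hgen p Fact.out hp l c h).2.1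
    · exact hR _ h
  · refine Helper91.KK.finite_nil_projective p hp hS hL.toLD (fun i => by simp) hL.not_dvd (e := e) ?_
      A hA ρ hρ hTame hres hU
    rcases h with ⟨rfl, hr, h⟩ | h
    · exact (hgen p Fact.out hp l c h).2.2 hr
    · exact h

/-- Almost all possible linking numbers are not zeros of `D`. -/
theorem proportion {r : ℕ} {D : MvPolynomial (Fin r × Fin r) ℤ} (hD : D ≠ 0) : ∃ C : ℕ,
    ∀ (p : ℕ) [Fact p.Prime],
      (Finset.univ.filter (fun f : Fin r × Fin r → ZMod p => MvPolynomial.aeval f D = 0)).card * p ≤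
        C * p ^ (r * r) := by
  obtain ⟨C, hC⟩ := Helper42.SOG.card_int_zeros_le hD
  refine ⟨C, fun p _ => (hC p).trans (le_of_eq ?_)⟩
  rw [Fintype.card_prod, Fintype.card_fin]

/-- Domains with small ramification satisfy the condition on the roots of unity. -/
theorem noRealRoot_of_domain (p : ℕ) [Fact p.Prime] (A : Type) [CommRing A] [IsDomain A]
    [IsLocalRing A] [CharP (ResidueField A) p] (h : (p : A) ^ 2 ∉ maximalIdeal A ^ (p - 1)) :
    NoRealRoot p A :=
  Helper42.SOM.noRealRoot_of_domain p A h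

/-- The last condition for linking data is true if `p` does not divide the class number of `K` and the
primes of `S` not above `p` with norm congruent to one modulo `p` are among the `𝔮 i`. -/
theorem complete_of_classNumber {p : ℕ} [Fact p.Prime] (hp : p ≠ 2) {K : Type} [Field K]
    [NumberField K] (hcl : ¬ p ∣ classNumber K) {S : Set (Ideal (𝓞 K))} {r : ℕ}
    (𝔮 : Fin r → Ideal (𝓞 K))
    (hS : ∀ P ∈ S, P.IsMaximal → (p : 𝓞 K) ∉ P → p ∣ Nat.card (𝓞 K ⧸ P) - 1 → ∃ i, 𝔮 i = P)
    (ψ : G K →* Multiplicative (ZMod p)) (hψ : IsOpen (ψ.ker : Set (G K)))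
    (hun : UnramifiedAt p S (Set.range 𝔮) ψ) : ψ = 1 :=
  Helper91.KK.gen_of_classNumber p hp hcl 𝔮 hS ψ hψ hun

/-- A tame homomorphism is tame for larger sets of primes. -/
theorem TameAt.mono {K : Type} [Field K] [NumberField K] {S S' : Set (Ideal (𝓞 K))} (hS : S ⊆ S')
    {H : Type} [Group H] {ρ : G K →* H} (h : TameAt K S ρ) : TameAt K S' ρ :=
  Helper91.KK.tameSub_mono hS h

/-- The `q i` are different prime numbers with `q i - 1 = p * c i`, where `c i` is not divisible by `p`,
and with primitive roots `g i`, and `q i` is congruent to `g j ^ l i j` modulo `q j` for `i ≠ j`. -/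
structure Linking (p : ℕ) {r : ℕ} (q g c : Fin r → ℕ) (l : Fin r → Fin r → ℕ) : Prop where
  prime : ∀ i, (q i).Prime
  injective : Function.Injective q
  eq : ∀ i, q i - 1 = p * c i
  not_dvd : ∀ i, ¬ p ∣ c i
  root : ∀ i, orderOf (g i : ZMod (q i)) = q i - 1
  log : ∀ i j, i ≠ j → (q i : ZMod (q j)) = (g j : ZMod (q j)) ^ l i j

private theorem Linking.toData {p r : ℕ} {q g c : Fin r → ℕ} {l : Fin r → Fin r → ℕ}
    (hq : Linking p q g c l) : Helper42.SOM.LinkData p q g l :=
  ⟨hq.prime, hq.injective, fun i => ⟨c i, hq.eq i⟩, hq.root, hq.log⟩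

/-- Linking data for number fields `K` whose degree and class number are not divisible by `p`, such
that there is only one prime `𝔮 i` above `q i`, of degree `f i`. Then the linking numbers are
`f i * l i j`. -/
theorem linkingData_field {p : ℕ} [Fact p.Prime] (hp : p ≠ 2) {r : ℕ} {q g c : Fin r → ℕ}
    {l : Fin r → Fin r → ℕ} (hq : Linking p q g c l) {K : Type} [Field K] [NumberField K]
    (hdeg : ¬ p ∣ Module.finrank ℚ K) (hcl : ¬ p ∣ classNumber K) {S : Set (Ideal (𝓞 K))}
    {𝔮 : Fin r → Ideal (𝓞 K)} {f : Fin r → ℕ} (hf : ∀ i, ¬ p ∣ f i) (hmax : ∀ i, (𝔮 i).IsMaximal)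
    (hcard : ∀ i, Nat.card (𝓞 K ⧸ 𝔮 i) = q i ^ f i)
    (huniq : ∀ i (P : Ideal (𝓞 K)), P.IsMaximal → (q i : 𝓞 K) ∈ P → P = 𝔮 i)
    (hS : ∀ P ∈ S, P.IsMaximal → (p : 𝓞 K) ∉ P → p ∣ Nat.card (𝓞 K ⧸ P) - 1 → ∃ i, 𝔮 i = P)
    (hqS : ∀ i, 𝔮 i ∈ S) :
    ∃ (χ : Fin r → G K →* Multiplicative (ZMod p)) (c' : Fin r → ℕ),
      LinkingData p K S 𝔮 χ c' (fun i j => f i * l i j) ∧ ∀ i, c' i ≡ f i * c i [MOD p] := by
  obtain ⟨χ, hχ⟩ := Helper91.KK.ld_field (Ω := AlgebraicClosure K) p hp hq.toData hdeg hcl hmax hcard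
    huniq hS hqS
  have h1 : ∀ i, q i = p * c i + 1 := by
    intro i
    have h2 := hq.eq i
    have h3 := (hq.prime i).two_le
    omega
  choose s hs using fun i => Helper91.KK.pow_eq p (c i) (f i)
  have h2 : ∀ i, q i ^ f i = p * (f i * c i + p * s i) + 1 := fun i => by
    rw [← hs i]
    exact congrArg (· ^ f i) (h1 i)
  have h3 : ∀ i, f i * c i + p * s i ≡ f i * c i [MOD p] := fun i => by
    have : f i * c i + p * s i ≡ f i * c i + 0 [MOD p] :=
      Nat.ModEq.add_left _ (Nat.modEq_zero_iff_dvd.2 (dvd_mul_right _ _))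
    rwa [add_zero] at this
  have hpr : p.Prime := Fact.out
  refine ⟨χ, fun i => f i * c i + p * s i, ⟨hmax, fun i => by rw [hcard i, h2 i], ?_, hχ.cont,
    hχ.ne, hχ.out, ?_, hχ.gen⟩, h3⟩
  · intro i hdvd
    have h4 : p ∣ f i * c i := (Nat.dvd_add_left (dvd_mul_right p (s i))).1 hdvd
    rcases (hpr.dvd_mul).1 h4 with h5 | h5
    · exact hf i h5
    · exact hq.not_dvd i h5
  · intro i j hij Q hQ hQi σ hσ
    refine hχ.frob i j hij Q hQ hQi σ ?_
    intro x
    have h4 := hσ x
    rw [← h2 i] at h4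
    exact h4

/-- The homomorphism `ρ` is unramified outside `T` and at most tamely ramified in `T`: let `F` be a
number field, embedded into the fixed field of the kernel of `ρ`, and let `P` be a maximal ideal of
its ring of integers, which contains the prime number `r`. Then the ramification index `e` of `P`
over `r` is `1` if `r ∉ T` and is not divisible by `r` if `r ∈ T`. -/
def Tame (T : Finset ℕ) {H : Type} [Group H] (ρ : G ℚ →* H) : Prop :=
  ∀ (F : Type) [Field F] [NumberField F] (ι : F →+* AlgebraicClosure ℚ),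
    (∀ g, ρ g = 1 → ∀ x, g (ι x) = ι x) → ∀ (P : Ideal (𝓞 F)), P.IsMaximal →
    ∀ (r e : ℕ), r.Prime → (r : 𝓞 F) ∈ P → (r : 𝓞 F) ∈ P ^ e → (r : 𝓞 F) ∉ P ^ (e + 1) →
      (r ∉ T → e = 1) ∧ (r ∈ T → ¬ r ∣ e)

/-- The primes of the rational numbers above the numbers in `T`. -/
def Above (T : Finset ℕ) : Set (Ideal (𝓞 ℚ)) := {P | P.IsMaximal ∧ ∃ t ∈ T, (t : 𝓞 ℚ) ∈ P}

private theorem galois (K : Type) [Field K] [NumberField K] : IsGalois K (AlgebraicClosure K) :=
  inferInstance

/-- Linking data for the rational numbers. -/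
theorem linkingData_rat {p : ℕ} [Fact p.Prime] (hp : p ≠ 2) {r : ℕ} {q g c : Fin r → ℕ}
    {l : Fin r → Fin r → ℕ} (hq : Linking p q g c l) {T : Finset ℕ} (hT : ∀ t ∈ T, t.Prime)
    (hTq : ∀ t ∈ T, p ∣ t - 1 → ∃ i, q i = t) (hqT : ∀ i, q i ∈ T) :
    ∃ (𝔮 : Fin r → Ideal (𝓞 ℚ)) (χ : Fin r → G ℚ →* Multiplicative (ZMod p)),
      LinkingData p ℚ (Above T) 𝔮 χ c l := by
  obtain ⟨𝔮, χ, hL⟩ := @Helper91.KK.ld_rat (AlgebraicClosure ℚ) _ (AlgebraicClosure.instAlgebra ℚ)
    (galois ℚ) _ p _ hp _ _ _ _ hq.toData T hT hTq hqT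
  have h1 : ∀ i, q i = p * c i + 1 := by
    intro i
    have h2 := hq.eq i
    have h3 := (hq.prime i).two_le
    omega
  refine ⟨𝔮, χ, ⟨hL.max, fun i => by rw [hL.card i, h1 i], hq.not_dvd, hL.cont, hL.ne, hL.out, ?_,
    hL.gen⟩⟩
  intro i j hij Q hQ hQi σ hσ
  refine hL.frob i j hij Q hQ hQi σ ?_
  intro x
  have h4 := hσ x
  rw [← h1 i] at h4
  exact h4

private theorem tame_above {T T' : Finset ℕ} (hT : ∀ t ∈ T, t.Prime) (hTT : T ⊆ T') {H : Type}
    [Group H] {ρ : G ℚ →* H} (h : Tame T ρ) : TameAt ℚ (Above T') ρ := by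
  have h1 : TameAt ℚ (Above T) ρ :=
    Helper42.SOM.tameSub_rat (fun F _ _ ι' hι' => h F ι' hι') hT
  refine h1.mono ?_
  rintro P ⟨hP, t, ht, htP⟩
  exact ⟨hP, t, hTT ht, htP⟩

/-- Inertia acts unipotently, for the rational numbers. -/
def UnipotentQ {A : Type} [CommRing A] {n : ℕ} (ρ : G ℚ →* GL (Fin n) A) : Prop :=
  ∀ Q : Ideal (𝓞 (AlgebraicClosure ℚ)), Q.IsMaximal → ∀ τ : G ℚ,
    (∀ x : 𝓞 (AlgebraicClosure ℚ), τ • x - x ∈ Q) →
    IsNilpotent ((ρ τ : Matrix (Fin n) (Fin n) A) - 1)

/-- Inertia acts unipotently with exponent `e`, for the rational numbers. -/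
def UnipotentExpQ {A : Type} [CommRing A] {n : ℕ} (e : ℕ) (ρ : G ℚ →* GL (Fin n) A) : Prop :=
  ∀ Q : Ideal (𝓞 (AlgebraicClosure ℚ)), Q.IsMaximal → ∀ τ : G ℚ,
    (∀ x : 𝓞 (AlgebraicClosure ℚ), τ • x - x ∈ Q) →
    ((ρ τ : Matrix (Fin n) (Fin n) A) - 1) ^ e = 0

/-- The theorem for the rational numbers: let `q i` be prime numbers congruent to one modulo `p` and
not modulo `p ^ 2`, with linking numbers `l i j`, and let `T` be a finite set of prime numbers, such
that those congruent to one modulo `p` are among the `q i`. -/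
theorem rational (r : ℕ) : ∃ D : MvPolynomial (Fin r × Fin r) ℤ, D ≠ 0 ∧
    ∀ (p : ℕ) [Fact p.Prime], p ≠ 2 → ∀ (q g c : Fin r → ℕ) (l : Fin r → Fin r → ℕ),
      Linking p q g c l → ∀ (T : Finset ℕ), (∀ t ∈ T, t.Prime) →
      (∀ t ∈ T, p ∣ t - 1 → ∃ i, q i = t) →
      ∀ (A : Type) [CommRing A] [IsLocalRing A] [IsNoetherianRing A] [TopologicalSpace A]
      [CharP (ResidueField A) p] [Finite (ResidueField A)] [IsAdicComplete (maximalIdeal A) A],
      IsAdic (maximalIdeal A) → ∀ (n : ℕ) (ρ : G ℚ →* GL (Fin n) A), Continuous ρ →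
      Tame T ρ → ProjectivelyP p (residual ρ) →
      ((n = 2 ∧ Rigid p l c True) ∨
        (n = 2 ∧ (NonZeroAt p l c D ∨ Rigid p l c False) ∧ (UnipotentQ ρ ∨ NoRealRoot p A)) ∨
        (∃ e, ((e = 2 ∧ r = 4 ∧ NonZeroAt p l c D) ∨ NilRigid p e l c) ∧ UnipotentExpQ e ρ)) →
      (Set.range ρ).Finite := by
  classical
  obtain ⟨D, hD, h⟩ := result r
  refine ⟨D, hD, ?_⟩
  intro p _ hp q g c l hq T hT hTq A _ _ _ _ _ _ _ hA n ρ hρ hTame hres hcase
  have hT' : ∀ t ∈ T ∪ Finset.image q Finset.univ, t.Prime := by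
    intro t ht
    rcases Finset.mem_union.1 ht with h | h
    · exact hT t h
    · obtain ⟨i, -, rfl⟩ := Finset.mem_image.1 h
      exact hq.prime i
  obtain ⟨𝔮, χ, hL⟩ := linkingData_rat (T := T ∪ Finset.image q Finset.univ) hp hq hT'
    (by
      intro t ht hdvd
      rcases Finset.mem_union.1 ht with h | h
      · exact hTq t h hdvd
      · obtain ⟨i, -, rfl⟩ := Finset.mem_image.1 h
        exact ⟨i, rfl⟩)
    (fun i => Finset.mem_union_right _ (Finset.mem_image_of_mem q (Finset.mem_univ i)))
  refine h p hp ℚ _ (Helper27.TE.finite_above_rat _ hT') 𝔮 χ c l hL A hA n ρ hρ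
    (tame_above hT Finset.subset_union_left hTame) hres ?_
  rcases hcase with hc | ⟨hn, hc, hU⟩ | ⟨e, hc, hU⟩
  · exact Or.inl hc
  · refine Or.inr (Or.inl ⟨hn, hc, ?_⟩)
    rcases hU with hU | hU
    · exact Or.inl fun Q hQ _ τ hτ => hU Q hQ τ hτ
    · exact Or.inr hU
  · exact Or.inr (Or.inr ⟨e, hc, fun Q hQ _ τ hτ => hU Q hQ τ hτ⟩)

/-- The numbers `7, 31, 43, 157` are rigid for `p = 3` and `n = 2`. -/
theorem rigid_three : Linking 3 ![7, 31, 43, 157] ![3, 3, 3, 5] ![2, 10, 14, 52]
      ![![0, 28, 35, 147], ![1, 0, 34, 62], ![0, 19, 0, 113], ![1, 24, 5, 0]] ∧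
    Rigid 3 ![![0, 28, 35, 147], ![1, 0, 34, 62], ![0, 19, 0, 113], ![1, 24, 5, 0]]
      ![2, 10, 14, 52] True :=
  ⟨⟨Helper42.SOM.linkData31.prime, Helper42.SOM.linkData31.inj, by decide, by decide,
    Helper42.SOM.linkData31.root, Helper42.SOM.linkData31.log⟩,
    fun k _ _ _ N u m hm => Helper42.SOM.rigid_of_crit Helper42.SOM.critA31 Helper42.SOM.critB31
      k N u m (fun _ => trivial) hm⟩

/-- The numbers `11, 61, 211, 271` are rigid for `p = 5` and `n = 2`. -/
theorem rigid_five : Linking 5 ![11, 61, 211, 271] ![2, 2, 2, 6] ![2, 12, 42, 54]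
      ![![0, 15, 162, 238], ![9, 0, 203, 178], ![1, 51, 0, 190], ![7, 18, 177, 0]] ∧
    Rigid 5 ![![0, 15, 162, 238], ![9, 0, 203, 178], ![1, 51, 0, 190], ![7, 18, 177, 0]]
      ![2, 12, 42, 54] True :=
  ⟨⟨Helper42.SOM.linkData6.prime, Helper42.SOM.linkData6.inj, by decide, by decide,
    Helper42.SOM.linkData6.root, Helper42.SOM.linkData6.log⟩,
    fun k _ _ _ N u m hm => Helper42.SOM.rigid_of_crit Helper42.SOM.critA6 Helper42.SOM.critB6
      k N u m (fun _ => trivial) hm⟩

/-- The numbers `11, 31, 41, 61` are rigid for `p = 5` and `n = 2`, in the weak sense. -/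
theorem rigid_five' : Linking 5 ![11, 31, 41, 61] ![2, 3, 6, 2] ![2, 6, 8, 12]
      ![![0, 23, 3, 15], ![6, 0, 28, 59], ![3, 14, 0, 54], ![9, 15, 34, 0]] ∧
    Rigid 5 ![![0, 23, 3, 15], ![6, 0, 28, 59], ![3, 14, 0, 54], ![9, 15, 34, 0]]
      ![2, 6, 8, 12] False :=
  ⟨⟨Helper42.SOM.linkData5.prime, Helper42.SOM.linkData5.inj, by decide, by decide,
    Helper42.SOM.linkData5.root, Helper42.SOM.linkData5.log⟩,
    fun k _ _ _ N u m hm => Helper42.SOM.rigid_of_link Helper42.SOM.link5 Helper42.SOM.critB5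
      k N u m (fun _ => trivial) hm⟩

/-- The numbers `13, 151, 277, 7` are rigid for `p = 3`, exponent `2` and all `n`. -/
theorem rigid_three_all : Linking 3 ![13, 151, 277, 7] ![2, 6, 5, 3] ![4, 50, 92, 2]
      ![![0, 41, 222, 3], ![3, 0, 131, 4], ![2, 149, 0, 4], ![11, 67, 22, 0]] ∧
    NilRigid 3 2 ![![0, 41, 222, 3], ![3, 0, 131, 4], ![2, 149, 0, 4], ![11, 67, 22, 0]]
      ![4, 50, 92, 2] :=
  ⟨⟨Helper42.SOG.linkDataA.prime, Helper42.SOG.linkDataA.inj, by decide, by decide,
    Helper42.SOG.linkDataA.root, Helper42.SOG.linkDataA.log⟩, Helper42.SOG.nilRigidA⟩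

/-- The numbers `311, 331, 421, 941` are rigid for `p = 5`, exponent `2` and all `n`. -/
theorem rigid_five_all : Linking 5 ![311, 331, 421, 941] ![17, 3, 2, 2] ![62, 66, 84, 188]
      ![![0, 313, 25, 830], ![240, 0, 37, 792], ![43, 29, 0, 158], ![66, 222, 344, 0]] ∧
    NilRigid 5 2 ![![0, 313, 25, 830], ![240, 0, 37, 792], ![43, 29, 0, 158], ![66, 222, 344, 0]]
      ![62, 66, 84, 188] :=
  ⟨⟨Helper42.SOG.linkDataB.prime, Helper42.SOG.linkDataB.inj, by decide, by decide,
    Helper42.SOG.linkDataB.root, Helper42.SOG.linkDataB.log⟩, Helper42.SOG.nilRigidB⟩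

/-- `p = 3`, `n = 2`, all coefficient rings of residue characteristic `3`, and sets of prime numbers
whose members congruent to `1` modulo `3` are among `7, 31, 43, 157`. -/
theorem three (T : Finset ℕ) (hT : ∀ r ∈ T, r.Prime)
    (hT' : ∀ r ∈ T, r % 3 = 1 → r = 7 ∨ r = 31 ∨ r = 43 ∨ r = 157)
    (A : Type) [CommRing A] [IsLocalRing A] [IsNoetherianRing A] [TopologicalSpace A]
    [CharP (ResidueField A) 3] [Finite (ResidueField A)] [IsAdicComplete (maximalIdeal A) A]
    (hA : IsAdic (maximalIdeal A)) (ρ : G ℚ →* GL (Fin 2) A) (hρ : Continuous ρ)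
    (hTame : Tame T ρ) (hres : ProjectivelyP 3 (residual ρ)) : (Set.range ρ).Finite := by
  have hf : Fact (Nat.Prime 3) := ⟨by norm_num⟩
  obtain ⟨D, -, h⟩ := rational 4
  refine h 3 (by norm_num) _ _ _ _ rigid_three.1 T hT ?_ A hA 2 ρ hρ hTame hres
    (Or.inl ⟨rfl, rigid_three.2⟩)
  intro r hr hd
  have h2 := (hT r hr).two_le
  rcases hT' r hr (by omega) with rfl | rfl | rfl | rfl
  · exact ⟨0, rfl⟩
  · exact ⟨1, rfl⟩
  · exact ⟨2, rfl⟩
  · exact ⟨3, rfl⟩

/-- `p = 5`, `n = 2`, all coefficient rings of residue characteristic `5`, and sets of prime numbers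
whose members congruent to `1` modulo `5` are among `11, 61, 211, 271`. -/
theorem five (T : Finset ℕ) (hT : ∀ r ∈ T, r.Prime)
    (hT' : ∀ r ∈ T, r % 5 = 1 → r = 11 ∨ r = 61 ∨ r = 211 ∨ r = 271)
    (A : Type) [CommRing A] [IsLocalRing A] [IsNoetherianRing A] [TopologicalSpace A]
    [CharP (ResidueField A) 5] [Finite (ResidueField A)] [IsAdicComplete (maximalIdeal A) A]
    (hA : IsAdic (maximalIdeal A)) (ρ : G ℚ →* GL (Fin 2) A) (hρ : Continuous ρ)
    (hTame : Tame T ρ) (hres : ProjectivelyP 5 (residual ρ)) : (Set.range ρ).Finite := by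
  have hf : Fact (Nat.Prime 5) := ⟨by norm_num⟩
  obtain ⟨D, -, h⟩ := rational 4
  refine h 5 (by norm_num) _ _ _ _ rigid_five.1 T hT ?_ A hA 2 ρ hρ hTame hres
    (Or.inl ⟨rfl, rigid_five.2⟩)
  intro r hr hd
  have h2 := (hT r hr).two_le
  rcases hT' r hr (by omega) with rfl | rfl | rfl | rfl
  · exact ⟨0, rfl⟩
  · exact ⟨1, rfl⟩
  · exact ⟨2, rfl⟩
  · exact ⟨3, rfl⟩

/-- `p = 5`, `n = 2`, domains `A` of residue characteristic `5` such that `25` is not in the fourth
power of the maximal ideal, and sets of prime numbers whose members congruent to `1` modulo `5` are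
among `11, 31, 41, 61`. -/
theorem five_small (T : Finset ℕ) (hT : ∀ r ∈ T, r.Prime)
    (hT' : ∀ r ∈ T, r % 5 = 1 → r = 11 ∨ r = 31 ∨ r = 41 ∨ r = 61)
    (A : Type) [CommRing A] [IsDomain A] [IsLocalRing A] [IsNoetherianRing A] [TopologicalSpace A]
    [CharP (ResidueField A) 5] [Finite (ResidueField A)] [IsAdicComplete (maximalIdeal A) A]
    (hA : IsAdic (maximalIdeal A)) (hsmall : (5 : A) ^ 2 ∉ maximalIdeal A ^ 4)
    (ρ : G ℚ →* GL (Fin 2) A) (hρ : Continuous ρ)
    (hTame : Tame T ρ) (hres : ProjectivelyP 5 (residual ρ)) : (Set.range ρ).Finite := by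
  have hf : Fact (Nat.Prime 5) := ⟨by norm_num⟩
  obtain ⟨D, -, h⟩ := rational 4
  refine h 5 (by norm_num) _ _ _ _ rigid_five'.1 T hT ?_ A hA 2 ρ hρ hTame hres
    (Or.inr (Or.inl ⟨rfl, Or.inr rigid_five'.2, Or.inr (noRealRoot_of_domain 5 A ?_)⟩))
  · intro r hr hd
    have h2 := (hT r hr).two_le
    rcases hT' r hr (by omega) with rfl | rfl | rfl | rfl
    · exact ⟨0, rfl⟩
    · exact ⟨1, rfl⟩
    · exact ⟨2, rfl⟩
    · exact ⟨3, rfl⟩
  · exact_mod_cast hsmall

/-- `p = 3`, all dimensions `n`, all coefficient rings of residue characteristic `3`, sets of prime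
numbers whose members congruent to `1` modulo `3` are among `7, 13, 151, 277`, and inertia acts
unipotently with exponent `2`. -/
theorem three_all (T : Finset ℕ) (hT : ∀ r ∈ T, r.Prime)
    (hT' : ∀ r ∈ T, r % 3 = 1 → r = 13 ∨ r = 151 ∨ r = 277 ∨ r = 7)
    (A : Type) [CommRing A] [IsLocalRing A] [IsNoetherianRing A] [TopologicalSpace A]
    [CharP (ResidueField A) 3] [Finite (ResidueField A)] [IsAdicComplete (maximalIdeal A) A]
    (hA : IsAdic (maximalIdeal A)) (n : ℕ) (ρ : G ℚ →* GL (Fin n) A) (hρ : Continuous ρ)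
    (hTame : Tame T ρ) (hres : ProjectivelyP 3 (residual ρ)) (hU : UnipotentExpQ 2 ρ) :
    (Set.range ρ).Finite := by
  have hf : Fact (Nat.Prime 3) := ⟨by norm_num⟩
  obtain ⟨D, -, h⟩ := rational 4
  refine h 3 (by norm_num) _ _ _ _ rigid_three_all.1 T hT ?_ A hA n ρ hρ hTame hres
    (Or.inr (Or.inr ⟨2, Or.inr rigid_three_all.2, hU⟩))
  intro r hr hd
  have h2 := (hT r hr).two_le
  rcases hT' r hr (by omega) with rfl | rfl | rfl | rfl
  · exact ⟨0, rfl⟩
  · exact ⟨1, rfl⟩
  · exact ⟨2, rfl⟩
  · exact ⟨3, rfl⟩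

/-- `p = 5`, all dimensions `n`, all coefficient rings of residue characteristic `5`, sets of prime
numbers whose members congruent to `1` modulo `5` are among `311, 331, 421, 941`, and inertia acts
unipotently with exponent `2`. -/
theorem five_all (T : Finset ℕ) (hT : ∀ r ∈ T, r.Prime)
    (hT' : ∀ r ∈ T, r % 5 = 1 → r = 311 ∨ r = 331 ∨ r = 421 ∨ r = 941)
    (A : Type) [CommRing A] [IsLocalRing A] [IsNoetherianRing A] [TopologicalSpace A]
    [CharP (ResidueField A) 5] [Finite (ResidueField A)] [IsAdicComplete (maximalIdeal A) A]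
    (hA : IsAdic (maximalIdeal A)) (n : ℕ) (ρ : G ℚ →* GL (Fin n) A) (hρ : Continuous ρ)
    (hTame : Tame T ρ) (hres : ProjectivelyP 5 (residual ρ)) (hU : UnipotentExpQ 2 ρ) :
    (Set.range ρ).Finite := by
  have hf : Fact (Nat.Prime 5) := ⟨by norm_num⟩
  obtain ⟨D, -, h⟩ := rational 4
  refine h 5 (by norm_num) _ _ _ _ rigid_five_all.1 T hT ?_ A hA n ρ hρ hTame hres
    (Or.inr (Or.inr ⟨2, Or.inr rigid_five_all.2, hU⟩))
  intro r hr hd
  have h2 := (hT r hr).two_le
  rcases hT' r hr (by omega) with rfl | rfl | rfl | rfl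
  · exact ⟨0, rfl⟩
  · exact ⟨1, rfl⟩
  · exact ⟨2, rfl⟩
  · exact ⟨3, rfl⟩

end Pool.Agent.Helper91.Old.LinkingNumbers
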