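import Mathlib
import Pool.Agent.Helper91.TriangleCore

/-!
# A reduction from unsatisfiability of CNF formulas to recognition of triangle graphs
-/

namespace Pool.Agent.Helper91.Old.UnsatReduction

open Pool.Agent.Helper91.Triangle

/-- A CNF formula with `m` clauses over `n` variables: `φ j i = some b` means that clause `j`
contains the literal saying that variable `i` has value `b`; `none` means that variable `i` does not
occur in clause `j`. -/
abbrev CNF (n m : ℕ) : Type := Fin m → Fin n → Option Bool

/-- Satisfiability of a CNF formula: some assignment makes a literal of every clause true. -/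
def CNF.Satisfiable {n m : ℕ} (φ : CNF n m) : Prop :=
  ∃ α : Fin n → Bool, ∀ j : Fin m, ∃ i : Fin n, φ j i = some (α i)

/-- The vertices of the graph: `(y, z, d, e)` for pairs of variables with values,
`(k, y, d)` for single variables with a value (four copies), and one vertex per clause. -/
abbrev Vtx (n m : ℕ) : Type := (Fin n × Fin n × Bool × Bool) ⊕ (Fin 4 × Fin n × Bool) ⊕ Fin m

/-- The kind of a vertex. -/
def kind {n m : ℕ} : Vtx n m → Kind
  | .inl _ => Kind.w012
  | .inr (.inl (k, _, _)) => ![Kind.w01, Kind.w02, Kind.w1, Kind.w2] k
  | .inr (.inr _) => Kind.w0

/-- The partial assignment of a vertex. The vertex of a clause gets the partial assignment which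
makes all literals of the clause false. -/
def pat {n m : ℕ} (φ : CNF n m) : Vtx n m → Fin n → Option Bool
  | .inl (y, z, d, e) => fun x => if x = y then some d else if x = z then some e else none
  | .inr (.inl (_, y, d)) => fun x => if x = y then some d else none
  | .inr (.inr j) => fun x => (φ j x).map (fun b => !b)

/-- The graph of a CNF formula. -/
def formulaGraph {n m : ℕ} (φ : CNF n m) : SimpleGraph (Vtx n m) := graph kind (pat φ)

/-- For every CNF formula over at least one variable, the graph, which has `4n² + 8n + m` vertices,
is a triangle graph if and only if the formula is unsatisfiable. -/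
theorem result (n m : ℕ) (hn : 1 ≤ n) (φ : CNF n m) :
    (IsTriangleGraph (formulaGraph φ) ↔ ¬ φ.Satisfiable) ∧
      Fintype.card (Vtx n m) = 4 * n ^ 2 + 8 * n + m := by
  refine ⟨?_, ?_⟩
  · have : Nonempty (Fin n) := ⟨⟨0, hn⟩⟩
    unfold formulaGraph
    rw [isTriangleGraph_iff (ι := Fin n) (D := Bool) kind (pat φ)]
    · unfold CNF.Satisfiable
      push Not
      refine forall_congr' fun α => ?_
      constructor
      · rintro ⟨v, hv, hag⟩
        rcases v with v | v | j
        · simp [kind] at hv
        · obtain ⟨k, y, d⟩ := v
          fin_cases k <;> simp [kind] at hv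
        · refine ⟨j, fun i hi => ?_⟩
          have := hag i (!(α i)) (by simp [pat, hi])
          simp at this
      · rintro ⟨j, hj⟩
        refine ⟨.inr (.inr j), rfl, ?_⟩
        intro y d hd
        simp only [pat, Option.map_eq_some_iff] at hd
        obtain ⟨b, hb, rfl⟩ := hd
        have := hj y
        rw [hb] at this
        have hne : b ≠ α y := fun h => this (by rw [h])
        cases b <;> cases h : α y <;> simp_all
    · intro α y z
      refine ⟨.inl (y, z, α y, α z), rfl, ?_, ?_, ?_⟩
      · intro x d hd
        simp only [pat] at hd
        split_ifs at hd with h1 h2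
        · subst h1; exact Option.some_injective _ hd
        · subst h2; exact Option.some_injective _ hd
      · simp [pat]
      · simp only [pat]
        split_ifs with h1
        · rw [h1]
        · rfl
    · intro k hk1 hk2 α y
      have : ∃ i : Fin 4, ![Kind.w01, Kind.w02, Kind.w1, Kind.w2] i = k := by
        revert hk1 hk2; revert k; decide
      obtain ⟨i, hi⟩ := this
      refine ⟨.inr (.inl (i, y, α y)), hi, ?_, ?_⟩
      · intro x d hd
        simp only [pat] at hd
        split_ifs at hd with h1
        subst h1; exact Option.some_injective _ hd
      · simp [pat]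
  · simp only [Fintype.card_sum, Fintype.card_prod, Fintype.card_fin, Fintype.card_bool]
    ring

end Pool.Agent.Helper91.Old.UnsatReduction
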